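import Mathlib

set_option autoImplicit false

/-!
Finite systems of upper and lower bounds for length functions on a free group which vanish on a
given normal subgroup, and the finite test for their consistency.
-/

namespace Pool.Agent.Lib.MP_b0cc33_lc

open FreeGroup

/-- Words. -/
abbrev W (n : ℕ) := List (Fin n × Bool)

/-- A word together with a lower and an upper bound for its length. -/
abbrev E (n : ℕ) := W n × ℕ × ℕ

variable {n : ℕ}

/-- Words with an upper bound, and their inverses. -/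
def gens (L : List (E n)) : List (W n × ℕ) :=
  L.flatMap (fun e => [(e.1, e.2.2), (invRev e.1, e.2.2)])

/-- All products of at most `r` generators, with their weights. -/
def prods (L : List (E n)) (r : ℕ) : List (W n × ℕ) :=
  Nat.rec [([], 0)]
    (fun _ ih => ([], 0) :: ih.flatMap (fun p => (gens L).map fun x => (x.1 ++ p.1, x.2 + p.2))) r

/-- `g` is a product of generators of total weight `k`. -/
inductive IsProd (L : List (E n)) : FreeGroup (Fin n) → ℕ → Prop
  | one : IsProd L 1 0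
  | mul (x : W n × ℕ) (g : FreeGroup (Fin n)) (k : ℕ) :
      x ∈ gens L → IsProd L g k → IsProd L (mk x.1 * g) (x.2 + k)

theorem IsProd.append {L : List (E n)} {g h : FreeGroup (Fin n)} {k l : ℕ}
    (hg : IsProd L g k) (hh : IsProd L h l) : IsProd L (g * h) (k + l) := by
  induction hg with
  | one => simpa using hh
  | mul x g k hx _ ih =>
    rw [mul_assoc, add_assoc]
    exact IsProd.mul x _ _ hx ih

theorem IsProd.single {L : List (E n)} {x : W n × ℕ} (hx : x ∈ gens L) :
    IsProd L (mk x.1) x.2 := by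
  simpa using IsProd.mul x 1 0 hx IsProd.one

theorem mem_gens {L : List (E n)} {x : W n × ℕ} :
    x ∈ gens L ↔ ∃ e ∈ L, x = (e.1, e.2.2) ∨ x = (invRev e.1, e.2.2) := by
  simp [gens]

theorem inv_mem_gens {L : List (E n)} {x : W n × ℕ} (hx : x ∈ gens L) :
    (invRev x.1, x.2) ∈ gens L := by
  rw [mem_gens] at hx ⊢
  obtain ⟨e, he, rfl | rfl⟩ := hx
  · exact ⟨e, he, Or.inr rfl⟩
  · exact ⟨e, he, Or.inl (by simp)⟩

theorem IsProd.inv {L : List (E n)} {g : FreeGroup (Fin n)} {k : ℕ}
    (hg : IsProd L g k) : IsProd L g⁻¹ k := by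
  induction hg with
  | one => simpa using IsProd.one
  | mul x g k hx _ ih =>
    rw [mul_inv_rev, add_comm, inv_mk]
    exact ih.append (IsProd.single (inv_mem_gens hx))

theorem isProd_of_mem_prods {L : List (E n)} :
    ∀ (r : ℕ) (p : W n × ℕ), p ∈ prods L r → IsProd L (mk p.1) p.2 := by
  intro r
  induction r with
  | zero =>
    intro p hp
    have : p = ([], 0) := by simpa [prods] using hp
    subst this
    exact IsProd.one
  | succ r ih =>
    intro p hp
    have : p = ([], 0) ∨ ∃ q ∈ prods L r, ∃ x ∈ gens L, (x.1 ++ q.1, x.2 + q.2) = p := by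
      change p ∈ ([], 0) :: (prods L r).flatMap _ at hp
      simpa only [List.mem_cons, List.mem_flatMap, List.mem_map] using hp
    rcases this with rfl | ⟨q, hq, x, hx, rfl⟩
    · exact IsProd.one
    · exact IsProd.mul x _ _ hx (ih q hq)

/-- All upper bounds are positive. -/
def Pos (L : List (E n)) : Prop := ∀ e ∈ L, 1 ≤ e.2.2

theorem Pos.gens {L : List (E n)} (h : Pos L) {x : W n × ℕ} (hx : x ∈ gens L) : 1 ≤ x.2 := by
  obtain ⟨e, he, rfl | rfl⟩ := mem_gens.1 hx <;> exact h e he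

theorem mem_prods_of_isProd {L : List (E n)} (hL : Pos L) {g : FreeGroup (Fin n)} {k : ℕ}
    (hg : IsProd L g k) : ∀ r, k ≤ r → ∃ p, (p, k) ∈ prods L r ∧ mk p = g := by
  induction hg with
  | one =>
    intro r _
    refine ⟨[], ?_, rfl⟩
    cases r with
    | zero => simp [prods]
    | succ r => exact List.mem_cons_self
  | mul x g k hx _ ih =>
    intro r hr
    have := hL.gens hx
    obtain ⟨r, rfl⟩ : ∃ r', r = r' + 1 := ⟨r - 1, by omega⟩
    obtain ⟨p, hp, rfl⟩ := ih r (by omega)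
    refine ⟨x.1 ++ p, ?_, rfl⟩
    change _ ∈ ([], 0) :: (prods L r).flatMap _
    simp only [List.mem_cons, List.mem_flatMap, List.mem_map]
    exact Or.inr ⟨(p, k), hp, x, hx, rfl⟩

/-- Consistency of a system of bounds. -/
def Cons (N : Subgroup (FreeGroup (Fin n))) (L : List (E n)) : Prop :=
  ∀ e ∈ L, ∀ g k, IsProd L g k → k < e.2.1 → (mk e.1)⁻¹ * g ∉ N

/-- The finite test for consistency. -/
def Check (out : ℕ → W n → Prop) (s : ℕ) (L : List (E n)) : Prop :=
  ∀ e ∈ L, ∀ p ∈ prods L e.2.1, p.2 < e.2.1 → out s (invRev e.1 ++ p.1)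

theorem Check.cons {N : Subgroup (FreeGroup (Fin n))} {out : ℕ → W n → Prop}
    (hout : ∀ s w, out s w → mk w ∉ N) {s : ℕ} {L : List (E n)} (hL : Pos L)
    (h : Check out s L) : Cons N L := by
  intro e he g k hg hk
  obtain ⟨p, hp, rfl⟩ := mem_prods_of_isProd hL hg e.2.1 hk.le
  exact hout _ _ (h e he _ hp hk)

theorem exists_forall_mem {α : Type} {P : ℕ → α → Prop} (hmono : ∀ s t a, s ≤ t → P s a → P t a)
    (l : List α) (h : ∀ a ∈ l, ∃ s, P s a) : ∃ s, ∀ a ∈ l, P s a := by
  induction l with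
  | nil => exact ⟨0, by simp⟩
  | cons a l ih =>
    obtain ⟨s, hs⟩ := ih (fun b hb => h b (List.mem_cons_of_mem _ hb))
    obtain ⟨t, ht⟩ := h a List.mem_cons_self
    refine ⟨max s t, fun b hb => ?_⟩
    rcases List.mem_cons.1 hb with rfl | hb
    · exact hmono _ _ _ (le_max_right _ _) ht
    · exact hmono _ _ _ (le_max_left _ _) (hs b hb)

theorem Cons.check {N : Subgroup (FreeGroup (Fin n))} {out : ℕ → W n → Prop}
    (hout : ∀ w, mk w ∉ N → ∃ s, out s w) (hmono : ∀ s t w, s ≤ t → out s w → out t w)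
    {L : List (E n)} (h : Cons N L) : ∃ s, Check out s L := by
  refine exists_forall_mem (P := fun s (e : E n) =>
    ∀ p ∈ prods L e.2.1, p.2 < e.2.1 → out s (invRev e.1 ++ p.1)) ?_ L ?_
  · intro s t e hst H p hp hlt
    exact hmono _ _ _ hst (H p hp hlt)
  · intro e he
    refine exists_forall_mem (P := fun s (p : W n × ℕ) =>
      p.2 < e.2.1 → out s (invRev e.1 ++ p.1)) ?_ _ ?_
    · intro s t p hst H hlt
      exact hmono _ _ _ hst (H hlt)
    · intro p hp
      by_cases hlt : p.2 < e.2.1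
      · obtain ⟨s, hs⟩ := hout (invRev e.1 ++ p.1) (h e he _ _ (isProd_of_mem_prods _ p hp) hlt)
        exact ⟨s, fun _ => hs⟩
      · exact ⟨0, fun h => absurd h hlt⟩

/-- Integer valued length functions vanishing on `N`. -/
structure IsLen (N : Subgroup (FreeGroup (Fin n))) (l : FreeGroup (Fin n) → ℕ) : Prop where
  mul : ∀ g h, l (g * h) ≤ l g + l h
  inv : ∀ g, l g⁻¹ = l g
  zero : ∀ g ∈ N, l g = 0

/-- `l` satisfies the bounds. -/
def Sat (L : List (E n)) (l : FreeGroup (Fin n) → ℕ) : Prop :=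
  ∀ e ∈ L, e.2.1 ≤ l (mk e.1) ∧ l (mk e.1) ≤ e.2.2

theorem cons_of_sat {N : Subgroup (FreeGroup (Fin n))} {L : List (E n)}
    {l : FreeGroup (Fin n) → ℕ} (hl : IsLen N l) (hs : Sat L l) : Cons N L := by
  have key : ∀ g k, IsProd L g k → l g ≤ k := by
    intro g k hg
    induction hg with
    | one => exact (hl.zero 1 N.one_mem).le
    | mul x g k hx _ ih =>
      refine (hl.mul _ _).trans (add_le_add ?_ ih)
      obtain ⟨e, he, rfl | rfl⟩ := mem_gens.1 hx
      · exact (hs e he).2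
      · rw [← inv_mk, hl.inv]; exact (hs e he).2
  intro e he g k hg hk hN
  have h1 := hl.mul g ((mk e.1)⁻¹ * g)⁻¹
  rw [hl.zero _ (N.inv_mem hN)] at h1
  have h2 : g * ((mk e.1)⁻¹ * g)⁻¹ = mk e.1 := by group
  rw [h2] at h1
  have := (hs e he).1
  have := key g k hg
  omega

theorem exists_len {N : Subgroup (FreeGroup (Fin n))} [hN : N.Normal] {L : List (E n)}
    (hp : Pos L) (hc : Cons N L) :
    ∃ l, IsLen N l ∧ Sat L l ∧ ∀ g, g ∉ N → 1 ≤ l g := by
  classical
  obtain ⟨c, hc1, hcL⟩ : ∃ c : ℕ, 1 ≤ c ∧ ∀ e ∈ L, e.2.1 ≤ c := by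
    refine ⟨(L.map (fun e => e.2.1)).sum + 1, by omega, fun e he => ?_⟩
    have := List.single_le_sum (l := L.map (fun e => e.2.1)) (by simp) e.2.1
      (List.mem_map.2 ⟨e, he, rfl⟩)
    omega
  let P : FreeGroup (Fin n) → ℕ → Prop := fun g k =>
    c ≤ k ∨ ∃ g' k', IsProd L g' k' ∧ k' ≤ k ∧ g⁻¹ * g' ∈ N
  have hex : ∀ g, ∃ k, P g k := fun g => ⟨c, Or.inl le_rfl⟩
  have hinv : ∀ g k, P g k → P g⁻¹ k := by
    rintro g k (h | ⟨g', k', h1, h2, h3⟩)
    · exact Or.inl h
    · refine Or.inr ⟨g'⁻¹, k', h1.inv, h2, ?_⟩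
      have := hN.conj_mem _ (N.inv_mem h3) g'
      have h4 : g' * (g⁻¹ * g')⁻¹ * g'⁻¹ = g⁻¹⁻¹ * g'⁻¹ := by group
      rwa [h4] at this
  refine ⟨fun g => Nat.find (hex g), ⟨?_, ?_, ?_⟩, ?_, ?_⟩
  · intro g h
    refine Nat.find_min' _ ?_
    rcases Nat.find_spec (hex g) with h1 | ⟨g', k', h1, h2, h3⟩
    · exact Or.inl (by omega)
    rcases Nat.find_spec (hex h) with h4 | ⟨h', l', h4, h5, h6⟩
    · exact Or.inl (by omega)
    refine Or.inr ⟨g' * h', k' + l', h1.append h4, by omega, ?_⟩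
    have h7 := N.mul_mem (hN.conj_mem _ h3 h⁻¹) h6
    have h8 : h⁻¹ * (g⁻¹ * g') * h⁻¹⁻¹ * (h⁻¹ * h') = (g * h)⁻¹ * (g' * h') := by group
    rwa [h8] at h7
  · intro g
    apply le_antisymm
    · exact Nat.find_min' _ (hinv _ _ (Nat.find_spec (hex g)))
    · refine Nat.find_min' _ ?_
      simpa using hinv _ _ (Nat.find_spec (hex g⁻¹))
  · intro g hg
    refine Nat.le_zero.1 (Nat.find_min' _ (Or.inr ⟨1, 0, IsProd.one, le_rfl, ?_⟩))
    simpa using hg
  · intro e he
    constructor
    · rcases Nat.find_spec (hex (mk e.1)) with h1 | ⟨g', k', h1, h2, h3⟩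
      · exact (hcL e he).trans h1
      · by_contra hlt
        exact hc e he g' k' h1 (by dsimp only at hlt; omega) h3
    · refine Nat.find_min' _ (Or.inr ⟨mk e.1, e.2.2, ?_, le_rfl,
        by rw [inv_mul_cancel]; exact N.one_mem⟩)
      exact IsProd.single (x := (e.1, e.2.2)) (mem_gens.2 ⟨e, he, Or.inl rfl⟩)
  · intro g hg
    rcases Nat.find_spec (hex g) with h1 | ⟨g', k', h1, h2, h3⟩
    · exact hc1.trans h1
    · cases h1 with
      | one => exact absurd (by simpa using h3) hg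
      | mul x g k hx _ =>
        have := hp.gens hx
        dsimp only
        omega

/-- Doubling the precision and adding a new answer. -/
def next (L : List (E n)) (w : W n) (m : ℕ) : List (E n) :=
  (w, m, m + 1) :: L.map (fun e => (e.1, 2 * e.2.1, 2 * e.2.2))

theorem Pos.next {L : List (E n)} (h : Pos L) (w : W n) (m : ℕ) : Pos (next L w m) := by
  intro e he
  rcases List.mem_cons.1 he with rfl | he
  · simp
  · obtain ⟨e', he', rfl⟩ := List.mem_map.1 he
    have := h e' he'
    dsimp only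
    omega

theorem exists_next {N : Subgroup (FreeGroup (Fin n))} [N.Normal] {L : List (E n)}
    (hp : Pos L) (hc : Cons N L) (w : W n) :
    ∃ m, Cons N (next L w m) ∧ (mk w ∉ N → 1 ≤ m) := by
  obtain ⟨l, hl, hs, h1⟩ := exists_len hp hc
  refine ⟨2 * l (mk w), cons_of_sat (l := fun g => 2 * l g) ⟨?_, ?_, ?_⟩ ?_, ?_⟩
  · intro g h; have := hl.mul g h; omega
  · intro g; rw [hl.inv]
  · intro g hg; rw [hl.zero g hg]
  · intro e he
    rcases List.mem_cons.1 he with rfl | he
    · simp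
    · obtain ⟨e', he', rfl⟩ := List.mem_map.1 he
      have := hs e' he'
      dsimp only
      omega
  · intro hw
    have := h1 _ hw
    omega

end Pool.Agent.Lib.MP_b0cc33_lc
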