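import Mathlib
import Pool.Agent.Lib.MP_b0cc33_lc.Combin

set_option autoImplicit false

/-!
Computability of the consistency test and of the resulting sequence of answers.
-/

namespace Pool.Agent.Lib.MP_b0cc33_lc

open FreeGroup Primrec

variable {n : ℕ}

theorem primrec_invRev : Primrec (invRev : W n → W n) := by
  have h : Primrec (fun w : W n => (w.map (fun g : Fin n × Bool => (g.1, !g.2))).reverse) :=
    list_reverse.comp (list_map Primrec.id
      (Primrec.pair (fst.comp snd) (Primrec.not.comp (snd.comp snd))).to₂)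
  exact h.of_eq (fun w => rfl)

theorem primrec_gens : Primrec (gens : List (E n) → List (W n × ℕ)) := by
  have h1 : Primrec (fun e : E n => [(e.1, e.2.2), (invRev e.1, e.2.2)]) :=
    list_cons.comp (Primrec.pair fst (snd.comp snd))
      (list_cons.comp (Primrec.pair (primrec_invRev.comp fst) (snd.comp snd)) (const []))
  exact list_flatMap Primrec.id (h1.comp snd).to₂

theorem primrec_prods : Primrec₂ (prods : List (E n) → ℕ → List (W n × ℕ)) := by
  have h1 : Primrec₂ (fun (L : List (E n)) (p : W n × ℕ) =>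
      (gens L).map fun x => (x.1 ++ p.1, x.2 + p.2)) :=
    (list_map (primrec_gens.comp fst)
      (Primrec.pair (list_append.comp (fst.comp snd) (fst.comp (snd.comp fst)))
        (nat_add.comp (snd.comp snd) (snd.comp (snd.comp fst)))).to₂).to₂
  have h2 : Primrec₂ (fun (L : List (E n)) (q : ℕ × List (W n × ℕ)) =>
      (([], 0) : W n × ℕ) :: q.2.flatMap
        (fun p => (gens L).map fun x => (x.1 ++ p.1, x.2 + p.2))) :=
    (list_cons.comp (const _) (list_flatMap (snd.comp snd)
      (h1.comp (fst.comp fst) snd).to₂)).to₂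
  exact nat_rec (f := fun _ : List (E n) => [(([], 0) : W n × ℕ)]) (const _) h2

theorem primrec_check {out : ℕ → W n → Prop} (hout : PrimrecRel out) :
    PrimrecRel (Check out) := by
  have h1 : PrimrecRel (fun (p : W n × ℕ) (a : ℕ × E n) =>
      p.2 < a.2.2.1 → out a.1 (invRev a.2.1 ++ p.1)) := by
    have ha : PrimrecPred (fun z : (W n × ℕ) × (ℕ × E n) => z.1.2 < z.2.2.2.1) :=
      nat_lt.comp (snd.comp fst) (fst.comp (snd.comp (snd.comp snd)))
    have hb : PrimrecPred (fun z : (W n × ℕ) × (ℕ × E n) =>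
        out z.2.1 (invRev z.2.2.1 ++ z.1.1)) :=
      hout.comp (fst.comp snd)
        (list_append.comp (primrec_invRev.comp (fst.comp (snd.comp snd))) (fst.comp fst))
    exact (ha.not.or hb).of_eq (fun z => by tauto)
  have h2 : PrimrecRel (fun (e : E n) (a : ℕ × List (E n)) =>
      ∀ p ∈ prods a.2 e.2.1, p.2 < e.2.1 → out a.1 (invRev e.1 ++ p.1)) :=
    h1.forall_mem_list.comp
      (primrec_prods.comp (snd.comp snd) (fst.comp (snd.comp fst)))
      (Primrec.pair (fst.comp snd) fst)
  exact h2.forall_mem_list.comp (α := ℕ × List (E n)) snd Primrec.id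

theorem primrec_pos : PrimrecPred (Pos : List (E n) → Prop) :=
  PrimrecPred.forall_mem_list (p := fun e : E n => 1 ≤ e.2.2) (nat_le.comp (const 1) (snd.comp snd))

theorem primrec_next : Primrec (fun a : List (E n) × W n × ℕ => next a.1 a.2.1 a.2.2) :=
  list_cons.comp (Primrec.pair (fst.comp snd)
      (Primrec.pair (snd.comp snd) (succ.comp (snd.comp snd))))
    (list_map fst (Primrec.pair (fst.comp snd)
      (Primrec.pair (nat_double.comp (fst.comp (snd.comp snd)))
        (nat_double.comp (snd.comp (snd.comp snd))))).to₂)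

/-- Enumeration of words. -/
def wd (n : ℕ) (i : ℕ) : W n := (Encodable.decode (α := W n) i).getD []

@[simp] theorem wd_encode (w : W n) : wd n (Encodable.encode w) = w := by simp [wd]

theorem primrec_wd : Primrec (wd n) :=
  option_getD.comp Primrec.decode (const [])

theorem exists_out {p : W n → Prop} (hp : REPred p) :
    ∃ out : ℕ → W n → Prop, PrimrecRel out ∧ (∀ s w, out s w → p w) ∧
      (∀ w, p w → ∃ s, out s w) ∧ ∀ s t w, s ≤ t → out s w → out t w := by
  obtain ⟨c, hc⟩ := Nat.Partrec.Code.exists_code.1 hp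
  have hdom : ∀ w, p w ↔ ∃ x, x ∈ c.eval (Encodable.encode w) := by
    intro w
    rw [hc]
    simp
  refine ⟨fun s w => (Nat.Partrec.Code.evaln s c (Encodable.encode w)).isSome, ?_, ?_, ?_, ?_⟩
  · have h : Primrec (fun a : ℕ × W n =>
        (Nat.Partrec.Code.evaln a.1 c (Encodable.encode a.2)).isSome) :=
      option_isSome.comp (Nat.Partrec.Code.primrec_evaln.comp
        (Primrec.pair (Primrec.pair fst (const c)) (Primrec.encode.comp snd)))
    exact Primrec.eq.comp h (const true)
  · intro s w h
    obtain ⟨x, hx⟩ := Option.isSome_iff_exists.1 h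
    exact (hdom w).2 ⟨x, Nat.Partrec.Code.evaln_sound hx⟩
  · intro w h
    obtain ⟨x, hx⟩ := (hdom w).1 h
    obtain ⟨s, hs⟩ := Nat.Partrec.Code.evaln_complete.1 hx
    exact ⟨s, Option.isSome_iff_exists.2 ⟨x, hs⟩⟩
  · intro s t w hst h
    obtain ⟨x, hx⟩ := Option.isSome_iff_exists.1 h
    exact Option.isSome_iff_exists.2 ⟨x, Nat.Partrec.Code.evaln_mono hst hx⟩

/-- The systems of bounds given by a sequence of answers. -/
def sys (n : ℕ) (m : ℕ → ℕ) : ℕ → List (E n)
  | 0 => []
  | t + 1 => next (sys n m t) (wd n t.unpair.1) (m t)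

theorem exists_answers (N : Subgroup (FreeGroup (Fin n))) [N.Normal]
    (hre : REPred (fun w : W n => mk w ∉ N)) :
    ∃ m : ℕ → ℕ, Computable m ∧ (∀ t, Pos (sys n m t) ∧ Cons N (sys n m t)) ∧
      ∀ w, mk w ∉ N → ∃ s, ∀ t, s ≤ t → wd n t.unpair.1 = w → 1 ≤ m t := by
  classical
  obtain ⟨out, hprim, hsound, hcompl, hmono⟩ := exists_out hre
  let P : ℕ × (List (E n) × ℕ) → ℕ → Prop := fun a z =>
    (Pos a.2.1 ∧ Check out a.2.2 a.2.1) →
      (Check out z.unpair.2 (next a.2.1 (wd n a.1.unpair.1) z.unpair.1) ∧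
        (out a.1 (wd n a.1.unpair.1) → 1 ≤ z.unpair.1))
  have hw : Primrec (fun t : ℕ => wd n t.unpair.1) := primrec_wd.comp (fst.comp unpair)
  have hPprim : PrimrecPred (fun p : (ℕ × (List (E n) × ℕ)) × ℕ => P p.1 p.2) := by
    have h1 : PrimrecPred (fun p : (ℕ × (List (E n) × ℕ)) × ℕ => Pos p.1.2.1) :=
      primrec_pos.comp (fst.comp (snd.comp fst))
    have h2 : PrimrecPred (fun p : (ℕ × (List (E n) × ℕ)) × ℕ => Check out p.1.2.2 p.1.2.1) :=
      (primrec_check hprim).comp (snd.comp (snd.comp fst)) (fst.comp (snd.comp fst))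
    have h3 : PrimrecPred (fun p : (ℕ × (List (E n) × ℕ)) × ℕ =>
        Check out p.2.unpair.2 (next p.1.2.1 (wd n p.1.1.unpair.1) p.2.unpair.1)) :=
      (primrec_check hprim).comp (snd.comp (unpair.comp snd))
        (primrec_next.comp (Primrec.pair (fst.comp (snd.comp fst))
          (Primrec.pair (hw.comp (fst.comp fst)) (fst.comp (unpair.comp snd)))))
    have h4 : PrimrecPred (fun p : (ℕ × (List (E n) × ℕ)) × ℕ =>
        out p.1.1 (wd n p.1.1.unpair.1)) :=
      hprim.comp (fst.comp fst) (hw.comp (fst.comp fst))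
    have h5 : PrimrecPred (fun p : (ℕ × (List (E n) × ℕ)) × ℕ => 1 ≤ p.2.unpair.1) :=
      nat_le.comp (const 1) (fst.comp (unpair.comp snd))
    exact ((h1.and h2).not.or (h3.and (h4.not.or h5))).of_eq (fun p => by
      simp only [P]; tauto)
  have hPex : ∀ a, ∃ z, P a z := by
    intro a
    by_cases h : Pos a.2.1 ∧ Check out a.2.2 a.2.1
    · obtain ⟨m, hm1, hm2⟩ := exists_next h.1 (h.2.cons hsound h.1) (wd n a.1.unpair.1)
      obtain ⟨s, hs⟩ := hm1.check hcompl hmono
      refine ⟨Nat.pair m s, fun _ => ?_⟩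
      simp only [Nat.unpair_pair]
      exact ⟨hs, fun ho => hm2 (hsound _ _ ho)⟩
    · exact ⟨0, fun h' => absurd h' h⟩
  let f : ℕ × (List (E n) × ℕ) → ℕ := fun a => Nat.find (hPex a)
  have hf : Computable f := Computable.find hPprim.computablePred hPex
  let st : ℕ → List (E n) × ℕ := fun t => Nat.rec ([], 0)
    (fun t σ => (next σ.1 (wd n t.unpair.1) (f (t, σ)).unpair.1, (f (t, σ)).unpair.2)) t
  have hstep : Computable (fun a : ℕ × (List (E n) × ℕ) =>
      (next a.2.1 (wd n a.1.unpair.1) (f a).unpair.1, (f a).unpair.2)) :=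
    Computable.pair
      (primrec_next.to_comp.comp (Computable.pair (Computable.fst.comp Computable.snd)
        (Computable.pair (hw.to_comp.comp Computable.fst)
          (Computable.fst.comp (Computable.unpair.comp hf)))))
      (Computable.snd.comp (Computable.unpair.comp hf))
  have hst : Computable st :=
    Computable.nat_rec (f := fun t : ℕ => t) (g := fun _ => (([], 0) : List (E n) × ℕ))
      (h := fun _ a => (next a.2.1 (wd n a.1.unpair.1) (f a).unpair.1, (f a).unpair.2))
      Computable.id (Computable.const _) (hstep.comp Computable.snd).to₂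
  let m : ℕ → ℕ := fun t => (f (t, st t)).unpair.1
  have hm : Computable m :=
    Computable.fst.comp (Computable.unpair.comp (hf.comp (Computable.pair Computable.id hst)))
  have hsys : ∀ t, (st t).1 = sys n m t := by
    intro t
    induction t with
    | zero => rfl
    | succ t ih =>
      change next (st t).1 _ _ = next (sys n m t) _ _
      rw [ih]
  have hinv : ∀ t, Pos (st t).1 ∧ Check out (st t).2 (st t).1 := by
    intro t
    induction t with
    | zero => exact ⟨fun e he => by simp [st] at he, fun e he => by simp [st] at he⟩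
    | succ t ih => exact ⟨ih.1.next _ _, (Nat.find_spec (hPex (t, st t)) ih).1⟩
  refine ⟨m, hm, fun t => ?_, fun w hw => ?_⟩
  · rw [← hsys]
    exact ⟨(hinv t).1, (hinv t).2.cons hsound (hinv t).1⟩
  · obtain ⟨s, hs⟩ := hcompl w hw
    refine ⟨s, fun t hst hwt => (Nat.find_spec (hPex (t, st t)) (hinv t)).2 ?_⟩
    dsimp only
    rw [hwt]
    exact hmono _ _ _ hst hs

end Pool.Agent.Lib.MP_b0cc33_lc
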