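import Mathlib
import Pool.Agent.Lib.MP_b0cc33_lc.Comput

set_option autoImplicit false

/-!
A computable real valued length function on a free group whose zero set is a given normal
subgroup with recursively enumerable complement.
-/

namespace Pool.Agent.Lib.MP_b0cc33_lc

open FreeGroup Filter Topology

variable {n : ℕ}

theorem mem_sys (m : ℕ → ℕ) (t d : ℕ) :
    (wd n t.unpair.1, m t * 2 ^ d, (m t + 1) * 2 ^ d) ∈ sys n m (t + 1 + d) := by
  induction d with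
  | zero => simp [sys, next]
  | succ d ih =>
    change _ ∈ next (sys n m (t + 1 + d)) _ _
    refine List.mem_cons_of_mem _ (List.mem_map.2 ⟨_, ih, ?_⟩)
    simp only [Prod.mk.injEq, true_and]
    constructor <;> ring

theorem exists_real_len (N : Subgroup (FreeGroup (Fin n))) [N.Normal]
    (hre : REPred (fun w : W n => mk w ∉ N)) :
    ∃ (l : FreeGroup (Fin n) → ℝ) (m : ℕ → ℕ), Computable m ∧
      (∀ g h, l (g * h) ≤ l g + l h) ∧ (∀ g, l g⁻¹ = l g) ∧ (∀ g, l g = 0 ↔ g ∈ N) ∧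
      ∀ t, (m t : ℝ) / 2 ^ (t + 1) ≤ l (mk (wd n t.unpair.1)) ∧
        l (mk (wd n t.unpair.1)) ≤ ((m t : ℝ) + 1) / 2 ^ (t + 1) := by
  obtain ⟨m, hm, hsys, hpos⟩ := exists_answers N hre
  choose l hl hsat _ using fun t => exists_len (hsys t).1 (hsys t).2
  let a : FreeGroup (Fin n) → ℕ → ℝ := fun g t => (l t g : ℝ) / 2 ^ t
  have hbound : ∀ t u, t + 1 ≤ u → (m t : ℝ) / 2 ^ (t + 1) ≤ a (mk (wd n t.unpair.1)) u ∧
      a (mk (wd n t.unpair.1)) u ≤ ((m t : ℝ) + 1) / 2 ^ (t + 1) := by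
    intro t u htu
    obtain ⟨d, rfl⟩ := Nat.exists_eq_add_of_le htu
    obtain ⟨h1, h2⟩ := hsat _ _ (mem_sys m t d)
    dsimp only at h1 h2
    have h1' : (m t : ℝ) * 2 ^ d ≤ l (t + 1 + d) (mk (wd n t.unpair.1)) := by exact_mod_cast h1
    have h2' : (l (t + 1 + d) (mk (wd n t.unpair.1)) : ℝ) ≤ (m t + 1) * 2 ^ d := by
      exact_mod_cast h2
    constructor
    · simp only [a]
      rw [div_le_div_iff₀ (by positivity) (by positivity), pow_add _ (t + 1) d]
      calc (m t : ℝ) * (2 ^ (t + 1) * 2 ^ d) = (m t * 2 ^ d) * 2 ^ (t + 1) := by ring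
        _ ≤ _ := by gcongr
    · simp only [a]
      rw [div_le_div_iff₀ (by positivity) (by positivity), pow_add _ (t + 1) d]
      calc _ ≤ ((m t + 1 : ℝ) * 2 ^ d) * 2 ^ (t + 1) := by gcongr
        _ = _ := by ring
  have hcauchy : ∀ g, CauchySeq (a g) := by
    intro g
    obtain ⟨w, rfl⟩ : ∃ w, FreeGroup.mk w = g := ⟨g.toWord, mk_toWord⟩
    rw [Metric.cauchySeq_iff]
    intro ε hε
    obtain ⟨k, hk⟩ := exists_pow_lt_of_lt_one hε (by norm_num : (1 / 2 : ℝ) < 1)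
    let t := Nat.pair (Encodable.encode w) k
    have ht : wd n t.unpair.1 = w := by simp [t]
    have hkt : k ≤ t + 1 := (Nat.right_le_pair _ _).trans (Nat.le_succ _)
    refine ⟨t + 1, fun u hu v hv => ?_⟩
    have h1 := hbound t u hu
    have h2 := hbound t v hv
    rw [ht] at h1 h2
    have h3 : (1 : ℝ) / 2 ^ (t + 1) ≤ (1 / 2) ^ k := by
      rw [one_div_pow]
      gcongr
      norm_num
    have h4 : ((m t : ℝ) + 1) / 2 ^ (t + 1) = (m t : ℝ) / 2 ^ (t + 1) + 1 / 2 ^ (t + 1) := by ring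
    rw [Real.dist_eq, abs_lt]
    constructor <;> linarith [h1.1, h1.2, h2.1, h2.2]
  choose L hL using fun g => cauchySeq_tendsto_of_complete (hcauchy g)
  have hfin : ∀ t, (m t : ℝ) / 2 ^ (t + 1) ≤ L (mk (wd n t.unpair.1)) ∧
      L (mk (wd n t.unpair.1)) ≤ ((m t : ℝ) + 1) / 2 ^ (t + 1) := fun t =>
    ⟨ge_of_tendsto (hL _) (eventually_atTop.2 ⟨t + 1, fun u hu => (hbound t u hu).1⟩),
      le_of_tendsto (hL _) (eventually_atTop.2 ⟨t + 1, fun u hu => (hbound t u hu).2⟩)⟩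
  refine ⟨L, m, hm, fun g h => ?_, fun g => ?_, fun g => ⟨fun h0 => ?_, fun hg => ?_⟩, hfin⟩
  · refine le_of_tendsto_of_tendsto' (hL _) ((hL g).add (hL h)) (fun t => ?_)
    simp only [a]
    rw [← add_div]
    gcongr
    exact_mod_cast (hl t).mul g h
  · refine tendsto_nhds_unique (hL _) ?_
    have : a g⁻¹ = a g := by ext t; simp only [a, (hl t).inv]
    rw [this]
    exact hL g
  · by_contra hg
    obtain ⟨w, rfl⟩ : ∃ w, FreeGroup.mk w = g := ⟨g.toWord, mk_toWord⟩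
    obtain ⟨s, hs⟩ := hpos w hg
    let t := Nat.pair (Encodable.encode w) s
    have ht : wd n t.unpair.1 = w := by simp [t]
    have h1 : (1 : ℝ) ≤ m t := by exact_mod_cast hs t (Nat.right_le_pair _ _) ht
    have h2 := (hfin t).1
    rw [ht, h0] at h2
    have h3 : (0 : ℝ) < (m t : ℝ) / 2 ^ (t + 1) := by positivity
    linarith
  · refine tendsto_nhds_unique (hL _) ?_
    have : a g = fun _ => 0 := by ext t; simp only [a, (hl t).zero g hg]; simp
    rw [this]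
    exact tendsto_const_nhds

theorem approx_div {x : ℝ} {m t k : ℕ} (hk : k ≤ t) (h1 : (m : ℝ) / 2 ^ t ≤ x)
    (h2 : x ≤ ((m : ℝ) + 1) / 2 ^ t) : |x - ((m / 2 ^ (t - k) : ℕ) : ℝ) / 2 ^ k| ≤ 1 / 2 ^ k := by
  obtain ⟨d, rfl⟩ := Nat.exists_eq_add_of_le hk
  rw [Nat.add_sub_cancel_left]
  set q := m / 2 ^ d with hq
  have h3 : q * 2 ^ d ≤ m := Nat.div_mul_le_self _ _
  have h4 : m + 1 ≤ (q + 1) * 2 ^ d := by
    have := Nat.lt_div_mul_add (a := m) (b := 2 ^ d) (by positivity)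
    rw [add_mul, one_mul]
    exact this
  have h3' : (q : ℝ) * 2 ^ d ≤ m := by exact_mod_cast h3
  have h4' : (m : ℝ) + 1 ≤ (q + 1) * 2 ^ d := by exact_mod_cast h4
  have h5 : (q : ℝ) / 2 ^ k ≤ (m : ℝ) / 2 ^ (k + d) := by
    rw [div_le_div_iff₀ (by positivity) (by positivity), pow_add]
    calc (q : ℝ) * (2 ^ k * 2 ^ d) = (q * 2 ^ d) * 2 ^ k := by ring
      _ ≤ _ := by gcongr
  have h6 : ((m : ℝ) + 1) / 2 ^ (k + d) ≤ ((q : ℝ) + 1) / 2 ^ k := by
    rw [div_le_div_iff₀ (by positivity) (by positivity), pow_add]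
    calc _ ≤ (((q : ℝ) + 1) * 2 ^ d) * 2 ^ k := by gcongr
      _ = _ := by ring
  have h7 : ((q : ℝ) + 1) / 2 ^ k = q / 2 ^ k + 1 / 2 ^ k := by ring
  have h8 : (0 : ℝ) < 1 / 2 ^ k := by positivity
  rw [abs_le]
  constructor <;> linarith

end Pool.Agent.Lib.MP_b0cc33_lc
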