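import Pool.Agent.Lib.MP_b0cc33_lc.UrRat
import Pool.Agent.Lib.MP_b0cc33_lc.Comput

set_option autoImplicit false

/-!
Finite systems of upper bounds for invariant pseudometrics on `G × ℕ` that extend the given
distance on `ℕ`, and the finite test for their consistency.
-/

namespace Pool.Agent.Lib.MP_b0cc33_lc.Ur

open FreeGroup

/-- `(a, w, b, k)` says that the point `a` is within `2 ^ (-k)` of the image of `b` under `w`. -/
abbrev En (n : ℕ) := ℕ × W n × ℕ × ℕ

variable {n : ℕ} {G : Type*} [Group G] {φ : FreeGroup (Fin n) →* G} {e : ℕ} {L : List (En n)}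

/-- The steps with their weights at scale `e`. -/
def gens (e : ℕ) (L : List (En n)) : List (En n) :=
  L.flatMap fun x => [(x.1, x.2.1, x.2.2.1, 2 ^ (e - x.2.2.2)),
    (x.2.2.1, invRev x.2.1, x.1, 2 ^ (e - x.2.2.2))]

/-- All paths of at most `r` steps that end at `b`. -/
def prods (e : ℕ) (L : List (En n)) (b r : ℕ) : List (ℕ × W n × ℕ) :=
  Nat.rec [(b, [], 0)] (fun _ ih => (b, [], 0) :: ih.flatMap fun p => (gens e L).map fun x =>
    (x.1, x.2.1 ++ p.2.1, x.2.2.2 + (R e x.2.2.1 p.1 + p.2.2))) r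

/-- A path from `a` to `b` with value `g` and weight `k`. -/
inductive Pth (φ : FreeGroup (Fin n) →* G) (e : ℕ) (L : List (En n)) (b : ℕ) : ℕ → G → ℕ → Prop
  | base (a : ℕ) : Pth φ e L b a 1 (R e a b)
  | step (a : ℕ) (x : En n) (g : G) (k : ℕ) : x ∈ gens e L → Pth φ e L b x.2.2.1 g k →
      Pth φ e L b a (φ (FreeGroup.mk x.2.1) * g) (R e a x.1 + (x.2.2.2 + k))

theorem mem_gens {x : En n} : x ∈ gens e L ↔ ∃ y ∈ L,
    x = (y.1, y.2.1, y.2.2.1, 2 ^ (e - y.2.2.2)) ∨
      x = (y.2.2.1, invRev y.2.1, y.1, 2 ^ (e - y.2.2.2)) := by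
  simp only [gens, List.mem_flatMap, List.mem_cons, List.not_mem_nil, or_false]

theorem gens_pos {x : En n} (h : x ∈ gens e L) : 1 ≤ x.2.2.2 := by
  obtain ⟨y, -, rfl | rfl⟩ := mem_gens.1 h <;> exact Nat.one_le_two_pow

theorem inv_mem_gens {x : En n} (h : x ∈ gens e L) :
    (x.2.2.1, invRev x.2.1, x.1, x.2.2.2) ∈ gens e L := by
  rw [mem_gens] at h ⊢
  obtain ⟨y, hy, rfl | rfl⟩ := h
  · exact ⟨y, hy, Or.inr rfl⟩
  · exact ⟨y, hy, Or.inl (by simp)⟩

theorem Pth.move {a b k : ℕ} {g : G} (h : Pth φ e L b a g k) (a' : ℕ) :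
    ∃ k' ≤ R e a' a + k, Pth φ e L b a' g k' := by
  cases h with
  | base => exact ⟨_, R_tri e a' a b, .base a'⟩
  | step _ x g k hx h =>
    refine ⟨_, ?_, .step a' x g k hx h⟩
    have := R_tri e a' a x.1
    omega

theorem Pth.append {a b c k l : ℕ} {g h : G} (h1 : Pth φ e L b a g k) (h2 : Pth φ e L c b h l) :
    ∃ m ≤ k + l, Pth φ e L c a (g * h) m := by
  induction h1 with
  | base a => simpa using h2.move a
  | step a x g k hx _ ih =>
    obtain ⟨m, hm, h3⟩ := ih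
    refine ⟨_, ?_, (mul_assoc _ g h).symm ▸ Pth.step a x _ m hx h3⟩
    omega

theorem Pth.inv {a b k : ℕ} {g : G} (h : Pth φ e L b a g k) : ∃ m ≤ k, Pth φ e L a b g⁻¹ m := by
  induction h with
  | base a => exact ⟨_, (R_comm e b a).le, by simpa using Pth.base b⟩
  | step a x g k hx _ ih =>
    obtain ⟨m, hm, h1⟩ := ih
    obtain ⟨m', hm', h2⟩ := h1.append (Pth.step x.2.2.1 _ 1 _ (inv_mem_gens hx) (.base (b := a) _))
    refine ⟨m', ?_, ?_⟩
    · have := R_self e x.2.2.1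
      have := R_comm e a x.1
      dsimp only at hm'
      omega
    · simpa [← inv_mk] using h2

theorem pth_of_mem {b : ℕ} : ∀ (r : ℕ) (p : ℕ × W n × ℕ), p ∈ prods e L b r →
    ∀ a, Pth φ e L b a (φ (FreeGroup.mk p.2.1)) (R e a p.1 + p.2.2) := by
  have h0 : ∀ a, Pth φ e L b a (φ (FreeGroup.mk [])) (R e a b + 0) := fun a => by
    rw [← one_eq_mk, φ.map_one]
    exact .base a
  intro r
  induction r with
  | zero =>
    intro p hp
    obtain rfl : p = (b, [], 0) := by simpa [prods] using hp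
    exact h0
  | succ r ih =>
    intro p hp
    change p ∈ (b, [], 0) :: (prods e L b r).flatMap _ at hp
    simp only [List.mem_cons, List.mem_flatMap, List.mem_map] at hp
    rcases hp with rfl | ⟨q, hq, x, hx, rfl⟩
    · exact h0
    · intro a
      rw [← mul_mk, φ.map_mul]
      exact .step a x _ _ hx (ih q hq _)

theorem Pth.mem {a b k : ℕ} {g : G} (h : Pth φ e L b a g k) :
    ∀ r, k ≤ r → ∃ p ∈ prods e L b r, φ (FreeGroup.mk p.2.1) = g ∧ R e a p.1 + p.2.2 = k := by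
  induction h with
  | base a =>
    intro r _
    refine ⟨(b, [], 0), ?_, by rw [← one_eq_mk, φ.map_one], rfl⟩
    cases r with
    | zero => simp [prods]
    | succ r => exact List.mem_cons_self
  | step a x g k hx _ ih =>
    intro r hr
    have := gens_pos hx
    obtain ⟨r, rfl⟩ : ∃ r', r = r' + 1 := ⟨r - 1, by omega⟩
    obtain ⟨p, hp, rfl, rfl⟩ := ih r (by omega)
    refine ⟨(x.1, x.2.1 ++ p.2.1, x.2.2.2 + (R e x.2.2.1 p.1 + p.2.2)), ?_,
      by rw [← mul_mk, φ.map_mul], rfl⟩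
    change _ ∈ (b, [], 0) :: (prods e L b r).flatMap _
    simp only [List.mem_cons, List.mem_flatMap, List.mem_map]
    exact Or.inr ⟨p, hp, x, hx, rfl⟩

/-- Consistency. -/
def Cons (φ : FreeGroup (Fin n) →* G) (e : ℕ) (L : List (En n)) : Prop :=
  ∀ a ≤ e, ∀ b ≤ e, ∀ k, Pth φ e L b a 1 k → R e a b ≤ k

/-- The finite test for consistency. -/
def Check (out : ℕ → W n → Prop) (s e : ℕ) (L : List (En n)) : Prop :=
  ∀ a < e + 1, ∀ b < e + 1, ∀ p ∈ prods e L b (R e a b), R e a p.1 + p.2.2 < R e a b → out s p.2.1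

theorem Check.cons {out : ℕ → W n → Prop} (hout : ∀ s w, out s w → φ (FreeGroup.mk w) ≠ 1) {s : ℕ}
    (h : Check out s e L) : Cons φ e L := by
  intro a ha b hb k hk
  by_contra hlt
  obtain ⟨p, hp, h1, h2⟩ := hk.mem (R e a b) (by omega)
  exact hout _ _ (h a (by omega) b (by omega) p hp (by omega)) h1

theorem Cons.check {out : ℕ → W n → Prop} (hout : ∀ w, φ (FreeGroup.mk w) ≠ 1 → ∃ s, out s w)
    (hmono : ∀ s t w, s ≤ t → out s w → out t w) (h : Cons φ e L) : ∃ s, Check out s e L := by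
  have h1 := exists_forall_mem (P := fun s a => ∀ b ∈ List.range (e + 1),
      ∀ p ∈ prods e L b (R e a b), R e a p.1 + p.2.2 < R e a b → out s p.2.1)
    (fun s t a hst H b hb p hp hl => hmono _ _ _ hst (H b hb p hp hl)) (List.range (e + 1))
    fun a ha => exists_forall_mem (P := fun s b =>
      ∀ p ∈ prods e L b (R e a b), R e a p.1 + p.2.2 < R e a b → out s p.2.1)
      (fun s t b hst H p hp hl => hmono _ _ _ hst (H p hp hl)) _
      fun b hb => exists_forall_mem (P := fun s (p : ℕ × W n × ℕ) =>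
        R e a p.1 + p.2.2 < R e a b → out s p.2.1)
        (fun s t p hst H hl => hmono _ _ _ hst (H hl)) _ fun p hp => by
          by_cases hl : R e a p.1 + p.2.2 < R e a b
          · obtain ⟨s, hs⟩ := hout p.2.1 fun h1 => by
              have := h a (Nat.le_of_lt_succ (List.mem_range.1 ha)) b
                (Nat.le_of_lt_succ (List.mem_range.1 hb)) _ (h1 ▸ pth_of_mem (φ := φ) _ p hp a)
              omega
            exact ⟨s, fun _ => hs⟩
          · exact ⟨0, fun h => absurd h hl⟩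
  simpa only [List.mem_range, Check] using h1

/-- An invariant pseudometric on `G × ℕ`: `d a g b` is the distance of `(1, a)` and `(g, b)`. -/
structure IsLen (d : ℕ → G → ℕ → ℝ) : Prop where
  tri : ∀ a g b h c, d a (g * h) c ≤ d a g b + d b h c
  symm : ∀ a g b, d a g b = d b g⁻¹ a

/-- A pseudometric that satisfies the bounds. -/
structure Wit (φ : FreeGroup (Fin n) →* G) (L : List (En n)) (d : ℕ → G → ℕ → ℝ) : Prop where
  len : IsLen d
  base : ∀ a b, d a 1 b = rho a b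
  le : ∀ x ∈ L, d x.1 (φ (FreeGroup.mk x.2.1)) x.2.2.1 ≤ 1 / 2 ^ x.2.2.2

/-- All numbers in the list are at most `e`. -/
def Bd (e : ℕ) (L : List (En n)) : Prop := ∀ x ∈ L, x.1 ≤ e ∧ x.2.2.1 ≤ e ∧ x.2.2.2 ≤ e

theorem two_pow_div {e k : ℕ} (h : k ≤ e) : ((2 ^ (e - k) : ℕ) : ℝ) / 2 ^ e = 1 / 2 ^ k := by
  obtain ⟨d, rfl⟩ := Nat.exists_eq_add_of_le h
  rw [Nat.add_sub_cancel_left, pow_add]
  push_cast
  field_simp

theorem Wit.cons {d : ℕ → G → ℕ → ℝ} (h : Wit φ L d) (hb : Bd e L) : Cons φ e L := by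
  have hg : ∀ x ∈ gens e L, x.1 ≤ e ∧ x.2.2.1 ≤ e ∧
      d x.1 (φ (FreeGroup.mk x.2.1)) x.2.2.1 ≤ (x.2.2.2 : ℝ) / 2 ^ e := by
    intro x hx
    obtain ⟨y, hy, rfl | rfl⟩ := mem_gens.1 hx
    · exact ⟨(hb y hy).1, (hb y hy).2.1, (two_pow_div (hb y hy).2.2).symm ▸ h.le y hy⟩
    · refine ⟨(hb y hy).2.1, (hb y hy).1, (two_pow_div (hb y hy).2.2).symm ▸ ?_⟩
      rw [← inv_mk, φ.map_inv, ← h.len.symm]
      exact h.le y hy
  have key : ∀ b ≤ e, ∀ a g k, Pth φ e L b a g k → a ≤ e → d a g b ≤ (k : ℝ) / 2 ^ e := by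
    intro b hb a g k hp
    induction hp with
    | base a => exact fun ha => ((h.base a b).trans (rho_eq ha hb)).le
    | step a x g k hx _ ih =>
      intro ha
      obtain ⟨h1, h2, h3⟩ := hg x hx
      have h4 := h.len.tri a 1 x.1 (φ (FreeGroup.mk x.2.1) * g) b
      have h5 := h.len.tri x.1 (φ (FreeGroup.mk x.2.1)) x.2.2.1 g b
      have h6 := ih h2
      rw [one_mul, h.base, rho_eq ha h1] at h4
      push_cast
      rw [add_div, add_div]
      linarith
  intro a ha b hb k hk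
  have h1 := key b hb a 1 k hk ha
  rw [h.base, rho_eq ha hb, div_le_div_iff_of_pos_right (by positivity)] at h1
  exact_mod_cast h1

theorem Cons.exists_len (hc : Cons φ e L) : ∃ l : ℕ → G → ℕ → ℕ,
    (∀ a g b h c, l a (g * h) c ≤ l a g b + l b h c) ∧ (∀ a g b, l a g b = l b g⁻¹ a) ∧
    (∀ a ≤ e, ∀ b ≤ e, l a 1 b = R e a b) ∧
    (∀ x ∈ L, l x.1 (φ (FreeGroup.mk x.2.1)) x.2.2.1 ≤ 2 ^ (e - x.2.2.2)) ∧ ∀ a g b, g ≠ 1 → 1 ≤ l a g b := by
  classical
  obtain ⟨c, hc1, hcR⟩ : ∃ c : ℕ, 1 ≤ c ∧ ∀ a ≤ e, ∀ b ≤ e, R e a b ≤ c := by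
    refine ⟨2 * (Finset.range e.succ).sup (R e 0) + 1, by omega, fun a ha b hb => ?_⟩
    have h1 := Finset.le_sup (f := R e 0) (Finset.mem_range.2 (Nat.lt_succ_of_le ha))
    have h2 := Finset.le_sup (f := R e 0) (Finset.mem_range.2 (Nat.lt_succ_of_le hb))
    have h3 := R_tri e a 0 b
    have h4 := R_comm e a 0
    omega
  let P : ℕ → G → ℕ → ℕ → Prop := fun a g b k => c ≤ k ∨ ∃ k' ≤ k, Pth φ e L b a g k'
  have hex : ∀ a g b, ∃ k, P a g b k := fun a g b => ⟨c, Or.inl le_rfl⟩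
  have hinv : ∀ a g b k, P a g b k → P b g⁻¹ a k := by
    rintro a g b k (h | ⟨k', h1, h2⟩)
    · exact Or.inl h
    · obtain ⟨m, hm, h3⟩ := h2.inv
      exact Or.inr ⟨m, hm.trans h1, h3⟩
  refine ⟨fun a g b => Nat.find (hex a g b), fun a g b h d => Nat.find_min' _ ?_,
    fun a g b => le_antisymm (Nat.find_min' _ ?_) (Nat.find_min' _ (hinv _ _ _ _ (Nat.find_spec _))),
    fun a ha b hb => le_antisymm (Nat.find_min' _ (Or.inr ⟨_, le_rfl, .base a⟩)) ?_,
    fun x hx => Nat.find_min' _ (Or.inr ?_), fun a g b hg => ?_⟩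
  · dsimp only
    rcases Nat.find_spec (hex a g b) with h1 | ⟨k, h1, h2⟩
    · exact Or.inl (by omega)
    rcases Nat.find_spec (hex b h d) with h3 | ⟨k', h3, h4⟩
    · exact Or.inl (by omega)
    obtain ⟨m, hm, h5⟩ := h2.append h4
    exact Or.inr ⟨m, by omega, h5⟩
  · simpa using hinv _ _ _ _ (Nat.find_spec (hex b g⁻¹ a))
  · rcases Nat.find_spec (hex a 1 b) with h1 | ⟨k, h1, h2⟩
    · exact (hcR a ha b hb).trans h1
    · exact (hc a ha b hb k h2).trans h1
  · have h1 := Pth.step (φ := φ) x.1 _ 1 _ (mem_gens.2 ⟨x, hx, Or.inl rfl⟩)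
      (.base (e := e) (b := x.2.2.1) _)
    rw [mul_one] at h1
    exact ⟨_, by simp only [R_self]; omega, h1⟩
  · rcases Nat.find_spec (hex a g b) with h1 | ⟨k, h1, h2⟩
    · exact hc1.trans h1
    · cases h2 with
      | base => exact absurd rfl hg
      | step _ x g k hx _ =>
        have := gens_pos hx
        dsimp only
        omega

/-- Hanging all points on finitely many anchors. -/
theorem IsLen.hang {d : ℕ → G → ℕ → ℝ} (h : IsLen d) {A : Type} [Finite A] [Nonempty A]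
    (v : A → ℕ) (γ : A → G) (c : ℕ → A → ℝ)
    (h1 : ∀ x α β, d (v α) ((γ α)⁻¹ * γ β) (v β) ≤ c x α + c x β)
    (h2 : ∀ x x' α, c x α ≤ rho x x' + c x' α)
    (h3 : ∀ x x' α β, rho x x' ≤ c x α + d (v α) ((γ α)⁻¹ * γ β) (v β) + c x' β) :
    ∃ d' : ℕ → G → ℕ → ℝ, IsLen d' ∧ (∀ a b, d' a 1 b = rho a b) ∧
      ∀ a g b α β, d' a g b ≤ c a α + d (v α) ((γ α)⁻¹ * g * γ β) (v β) + c b β := by
  classical
  let J : ℕ → G → ℕ → A × A → ℝ := fun a g b p =>
    c a p.1 + d (v p.1) ((γ p.1)⁻¹ * g * γ p.2) (v p.2) + c b p.2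
  let I : ℕ → G → ℕ → ℝ := fun a g b => ⨅ p, J a g b p
  have hle : ∀ a g b p, I a g b ≤ J a g b p := fun a g b p => ciInf_le (Finite.bddBelow_range _) p
  have hex : ∀ a g b, ∃ p, J a g b p = I a g b := fun a g b => exists_eq_ciInf_of_finite
  have hs : ∀ a g b, I a g b ≤ I b g⁻¹ a := fun a g b => by
    obtain ⟨p, hp⟩ := hex b g⁻¹ a
    refine (hle a g b (p.2, p.1)).trans (le_of_eq ?_)
    rw [← hp]
    simp only [J]
    rw [h.symm, show ((γ p.2)⁻¹ * g * γ p.1)⁻¹ = (γ p.1)⁻¹ * g⁻¹ * γ p.2 by group]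
    ring
  have hs' : ∀ a g b, I a g b = I b g⁻¹ a := fun a g b =>
    le_antisymm (hs a g b) (by simpa using hs b g⁻¹ a)
  have ht : ∀ a g b k z, I a (g * k) z ≤ I a g b + I b k z := fun a g b k z => by
    obtain ⟨p, hp⟩ := hex a g b
    obtain ⟨q, hq⟩ := hex b k z
    refine (hle a _ z (p.1, q.2)).trans ?_
    have e1 := h.tri (v p.1) ((γ p.1)⁻¹ * g * γ p.2) (v p.2)
      ((γ p.2)⁻¹ * γ q.1 * ((γ q.1)⁻¹ * k * γ q.2)) (v q.2)
    have e2 := h.tri (v p.2) ((γ p.2)⁻¹ * γ q.1) (v q.1) ((γ q.1)⁻¹ * k * γ q.2) (v q.2)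
    have e3 := h1 b p.2 q.1
    rw [show (γ p.1)⁻¹ * g * γ p.2 * ((γ p.2)⁻¹ * γ q.1 * ((γ q.1)⁻¹ * k * γ q.2)) =
      (γ p.1)⁻¹ * (g * k) * γ q.2 by group] at e1
    rw [← hp, ← hq]
    simp only [J]
    linarith
  have h0 : ∀ a b, rho a b ≤ I a 1 b := fun a b => by
    obtain ⟨p, hp⟩ := hex a 1 b
    rw [← hp]
    simpa only [J, mul_one] using h3 a b p.1 p.2
  have hm : ∀ a b g z, I a g z ≤ rho a b + I b g z := fun a b g z => by
    obtain ⟨p, hp⟩ := hex b g z
    refine (hle a g z p).trans ?_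
    have := h2 a b p.1
    rw [← hp]
    simp only [J]
    linarith
  refine ⟨fun a g b => if g = 1 then rho a b else I a g b, ⟨fun a g b k z => ?_, fun a g b => ?_⟩,
    fun a b => if_pos rfl, fun a g b α β => le_trans ?_ (hle a g b (α, β))⟩
  · by_cases hg : g = 1
    · subst hg
      by_cases hk : k = 1
      · subst hk
        simpa using rho_tri a b z
      · simpa [hk] using hm a b k z
    · by_cases hk : k = 1
      · subst hk
        have := hm z b g⁻¹ a
        rw [← hs', ← hs', rho_comm] at this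
        simpa [hg, add_comm] using this
      · rw [if_neg hg, if_neg hk]
        refine le_trans ?_ (ht a g b k z)
        split_ifs with h4
        · exact h4 ▸ h0 a z
        · exact le_rfl
  · simp only [inv_eq_one, rho_comm a b, hs' a g b]
  · dsimp only
    split_ifs with h4
    · exact h4 ▸ h0 a b
    · exact le_rfl

theorem Cons.exists_next (hc : Cons φ e L) (hb : Bd e L) (w : W n) {y : ℕ} (hy : y ≤ e) :
    ∃ i, e < i ∧ (∃ d, Wit φ ((i, w, y, e) :: L) d) ∧
      (φ (FreeGroup.mk w) ≠ 1 → 2 * 2 ^ (i - e) ≤ R i i y) := by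
  obtain ⟨l, l1, l2, l3, l4, l5⟩ := hc.exists_len
  obtain ⟨g, hg⟩ : ∃ g, g = φ (FreeGroup.mk w) := ⟨_, rfl⟩
  obtain ⟨i, hi, hf⟩ := exists_ext e (fun a => l a g y + 1) (fun a ha b hb => by
    have h1 := l1 a g y g⁻¹ b
    rw [mul_inv_cancel, l3 a ha b hb, ← l2] at h1
    omega) (fun a ha b hb => by
    have h1 := l1 b 1 a g y
    rw [one_mul, l3 b hb a ha, R_comm] at h1
    omega)
  obtain ⟨d, hd⟩ : ∃ d : ℕ → G → ℕ → ℝ, d = fun a g b => (l a g b : ℝ) / 2 ^ e := ⟨_, rfl⟩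
  have hl : IsLen d := hd ▸ ⟨fun a g b h c => by
    rw [← add_div]
    gcongr
    exact_mod_cast l1 a g b h c, fun a g b => by rw [l2]⟩
  have hδ : (0 : ℝ) < 1 / 2 ^ e := by positivity
  have h0 : ∀ a ≤ e, ∀ b ≤ e, d a 1 b = rho a b := fun a ha b hb => by
    rw [hd, rho_eq ha hb]
    simp only [l3 a ha b hb]
  have hi' : ∀ a ≤ e, rho a i = d a g y + 1 / 2 ^ e := fun a ha => by
    rw [(hf a ha).2, hd]
    push_cast
    ring
  have hF : ∀ a : Fin (e + 1), (a : ℕ) ≤ e := fun a => Nat.le_of_lt_succ a.2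
  have hyy : d y 1 y = 0 := (h0 y hy y hy).trans (rho_self y)
  obtain ⟨d', k1, k2, k3⟩ := hl.hang (A := Option (Fin (e + 1))) (fun α => α.elim y (↑))
    (fun α => α.elim g fun _ => 1) (fun x α => α.elim (rho x i + 1 / 2 ^ e) fun a => rho x a)
    (by
      rintro x (_ | a) (_ | b) <;>
        simp only [Option.elim, inv_mul_cancel, mul_one, inv_one, one_mul]
      · have := rho_tri i x i
        rw [rho_self, rho_comm i x] at this
        linarith
      · have := rho_tri b x i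
        rw [hi' b (hF b), rho_comm b x] at this
        rw [← hl.symm]
        linarith
      · have := rho_tri a x i
        rw [hi' a (hF a), rho_comm a x] at this
        linarith
      · have := rho_tri a x b
        rwa [rho_comm a x, ← h0 a (hF a) b (hF b)] at this)
    (by
      rintro x x' (_ | a) <;> simp only [Option.elim]
      · linarith [rho_tri x x' i]
      · exact rho_tri x x' a)
    (by
      rintro x x' (_ | a) (_ | b) <;>
        simp only [Option.elim, inv_mul_cancel, mul_one, inv_one, one_mul]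
      · linarith [rho_tri x i x', rho_comm i x']
      · rw [← hl.symm]
        linarith [rho_tri x i x', rho_tri i b x', rho_comm i b, rho_comm b x', hi' b (hF b)]
      · linarith [rho_tri x a x', rho_tri a i x', rho_comm i x', hi' a (hF a)]
      · linarith [rho_tri x a x', rho_tri a b x', rho_comm b x', h0 a (hF a) b (hF b)])
  refine ⟨i, hi, ⟨d', k1, k2, fun x hx => ?_⟩, fun h1 => ?_⟩
  · rcases List.mem_cons.1 hx with rfl | hx
    · have h1 := k3 i g y none (some ⟨y, Nat.lt_succ_of_le hy⟩)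
      simp only [Option.elim, inv_mul_cancel, mul_one, rho_self, hyy] at h1
      rw [← hg]
      linarith
    · obtain ⟨b1, b2, b3⟩ := hb x hx
      have h1 := k3 x.1 (φ (FreeGroup.mk x.2.1)) x.2.2.1 (some ⟨_, Nat.lt_succ_of_le b1⟩)
        (some ⟨_, Nat.lt_succ_of_le b2⟩)
      simp only [Option.elim, mul_one, inv_one, one_mul, rho_self, zero_add, add_zero, hd] at h1
      rw [← two_pow_div b3]
      refine h1.trans ?_
      gcongr
      exact_mod_cast l4 x hx
  · rw [(hf y hy).1]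
    exact Nat.mul_le_mul_right _ (Nat.succ_le_succ (l5 y g y (hg ▸ h1)))

end Pool.Agent.Lib.MP_b0cc33_lc.Ur
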