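import Pool.Agent.Lib.MP_b0cc33_lc.UrComb

set_option autoImplicit false

/-!
The computable sequence of approximating points.
-/

namespace Pool.Agent.Lib.MP_b0cc33_lc.Ur

open Primrec

variable {n : ℕ}

theorem primrec_gens : Primrec₂ (gens : ℕ → List (En n) → List (En n)) := by
  have h0 : Primrec fun p : (ℕ × List (En n)) × En n => 2 ^ (p.1.1 - p.2.2.2.2) :=
    hpow.comp (const 2) (nat_sub.comp (fst.comp fst) (snd.comp (snd.comp (snd.comp snd))))
  have h1 : Primrec fun p : (ℕ × List (En n)) × En n => p.2.1 := fst.comp snd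
  have h2 : Primrec fun p : (ℕ × List (En n)) × En n => p.2.2.1 := fst.comp (snd.comp snd)
  have h3 : Primrec fun p : (ℕ × List (En n)) × En n => p.2.2.2.1 :=
    fst.comp (snd.comp (snd.comp snd))
  exact list_flatMap snd (list_cons.comp (h1.pair (h2.pair (h3.pair h0)))
    (list_cons.comp (h3.pair ((primrec_invRev.comp h2).pair (h1.pair h0))) (const []))).to₂

theorem primrec_prods : Primrec₂ fun (a : ℕ × List (En n) × ℕ) r => prods a.1 a.2.1 a.2.2 r := by
  have h0 : Primrec fun a : ℕ × List (En n) × ℕ => ((a.2.2, [], 0) : ℕ × W n × ℕ) :=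
    (snd.comp snd).pair (const _)
  have h1 : Primrec₂ fun (a : ℕ × List (En n) × ℕ) (p : ℕ × W n × ℕ) => (gens a.1 a.2.1).map
      fun x => (x.1, x.2.1 ++ p.2.1, x.2.2.2 + (R a.1 x.2.2.1 p.1 + p.2.2)) :=
    (list_map (primrec_gens.comp (fst.comp fst) (fst.comp (snd.comp fst)))
      ((fst.comp snd).pair ((list_append.comp (fst.comp (snd.comp snd))
        (fst.comp (snd.comp (snd.comp fst)))).pair (nat_add.comp
        (snd.comp (snd.comp (snd.comp snd))) (nat_add.comp (primrec_R (fst.comp (fst.comp fst))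
        (fst.comp (snd.comp (snd.comp snd))) (fst.comp (snd.comp fst)))
        (snd.comp (snd.comp (snd.comp fst))))))).to₂).to₂
  have h2 : Primrec₂ fun (a : ℕ × List (En n) × ℕ) (q : ℕ × List (ℕ × W n × ℕ)) =>
      ((a.2.2, [], 0) : ℕ × W n × ℕ) :: q.2.flatMap fun p => (gens a.1 a.2.1).map
        fun x => (x.1, x.2.1 ++ p.2.1, x.2.2.2 + (R a.1 x.2.2.1 p.1 + p.2.2)) :=
    (list_cons.comp (h0.comp fst) (list_flatMap (snd.comp snd)
      (h1.comp (fst.comp fst) snd).to₂)).to₂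
  exact nat_rec (f := fun a : ℕ × List (En n) × ℕ => [((a.2.2, [], 0) : ℕ × W n × ℕ)])
    (list_cons.comp h0 (const [])) h2

attribute [local irreducible] R prods

theorem primrec_check {out : ℕ → W n → Prop} (hout : PrimrecRel out) :
    PrimrecPred fun a : ℕ × ℕ × List (En n) => Check out a.1 a.2.1 a.2.2 := by
  have h1 : PrimrecRel fun (p : ℕ × W n × ℕ) (z : ℕ × ℕ × ℕ × ℕ × List (En n)) =>
      R z.2.2.2.1 z.2.1 p.1 + p.2.2 < R z.2.2.2.1 z.2.1 z.1 → out z.2.2.1 p.2.1 := by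
    have he : Primrec fun q : (ℕ × W n × ℕ) × ℕ × ℕ × ℕ × ℕ × List (En n) => q.2.2.2.2.1 :=
      fst.comp (snd.comp (snd.comp (snd.comp snd)))
    have ha : Primrec fun q : (ℕ × W n × ℕ) × ℕ × ℕ × ℕ × ℕ × List (En n) => q.2.2.1 :=
      fst.comp (snd.comp snd)
    have h2 := nat_lt.comp (nat_add.comp (primrec_R he ha (fst.comp fst)) (snd.comp (snd.comp fst)))
      (primrec_R he ha (fst.comp snd))
    have h3 := hout.comp (α := (ℕ × W n × ℕ) × ℕ × ℕ × ℕ × ℕ × List (En n))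
      (fst.comp (snd.comp (snd.comp snd))) (fst.comp (snd.comp fst))
    exact (h2.not.or h3).of_eq fun z => imp_iff_not_or.symm
  have h2 : PrimrecRel fun (b : ℕ) (z : ℕ × ℕ × ℕ × List (En n)) =>
      ∀ p ∈ prods z.2.2.1 z.2.2.2 b (R z.2.2.1 z.1 b),
        R z.2.2.1 z.1 p.1 + p.2.2 < R z.2.2.1 z.1 b → out z.2.1 p.2.1 :=
    h1.forall_mem_list.comp (primrec_prods.comp ((fst.comp (snd.comp (snd.comp snd))).pair
      ((snd.comp (snd.comp (snd.comp snd))).pair fst))
      (primrec_R (fst.comp (snd.comp (snd.comp snd))) (fst.comp snd) fst)) Primrec.id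
  have h3 : PrimrecRel fun (a : ℕ) (z : ℕ × ℕ × List (En n)) => ∀ b < z.2.1 + 1,
      ∀ p ∈ prods z.2.1 z.2.2 b (R z.2.1 a b),
        R z.2.1 a p.1 + p.2.2 < R z.2.1 a b → out z.1 p.2.1 :=
    primrec_ball h2 (succ.comp (fst.comp (snd.comp snd)))
  exact primrec_ball h3 (succ.comp (fst.comp snd))

theorem primrec_bd : PrimrecRel (Bd : ℕ → List (En n) → Prop) := by
  have h1 : PrimrecRel fun (x : En n) (e : ℕ) => x.1 ≤ e ∧ x.2.2.1 ≤ e ∧ x.2.2.2 ≤ e :=
    (nat_le.comp (fst.comp fst) snd).and ((nat_le.comp (fst.comp (snd.comp (snd.comp fst))) snd).and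
      (nat_le.comp (snd.comp (snd.comp (snd.comp fst))) snd))
  exact h1.forall_mem_list.comp (α := ℕ × List (En n)) snd fst

/-- The word that is treated at stage `t`. -/
def tw (n t : ℕ) : W n := wd n t.unpair.1.unpair.1

/-- The point that is treated at stage `t`. -/
def ty (t : ℕ) : ℕ := t.unpair.1.unpair.2

theorem ty_le (t : ℕ) : ty t ≤ t := (Nat.unpair_right_le _).trans (Nat.unpair_left_le _)

theorem exists_seq {G : Type*} [Group G] (φ : FreeGroup (Fin n) →* G)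
    (hre : REPred fun w : W n => φ (FreeGroup.mk w) ≠ 1) :
    ∃ e : ℕ → ℕ, Computable e ∧ (∀ t, t ≤ e t) ∧
      (∀ T, ∃ d : ℕ → G → ℕ → ℝ, IsLen d ∧ (∀ a b, d a 1 b = rho a b) ∧
        ∀ t < T, d (e (t + 1)) (φ (FreeGroup.mk (tw n t))) (ty t) ≤ 1 / 2 ^ e t) ∧
      ∀ w, φ (FreeGroup.mk w) ≠ 1 → ∃ s, ∀ t, s ≤ t → tw n t = w →
        2 / 2 ^ e t ≤ rho (e (t + 1)) (ty t) := by
  classical
  obtain ⟨out, hprim, hsound, hcompl, hmono⟩ := exists_out hre
  let P : ℕ × (ℕ × ℕ × List (En n)) → ℕ → Prop := fun a z =>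
    (Bd a.2.2.1 a.2.2.2 ∧ ty a.1 ≤ a.2.2.1 ∧ Check out a.2.1 a.2.2.1 a.2.2.2) →
      (a.2.2.1 < z.unpair.1 ∧ Check out z.unpair.2 z.unpair.1
        ((z.unpair.1, tw n a.1, ty a.1, a.2.2.1) :: a.2.2.2) ∧
        (out a.1 (tw n a.1) → 2 * 2 ^ (z.unpair.1 - a.2.2.1) ≤ R z.unpair.1 z.unpair.1 (ty a.1)))
  have hw : Primrec (tw n) := primrec_wd.comp (fst.comp (unpair.comp (fst.comp unpair)))
  have hy : Primrec ty := snd.comp (unpair.comp (fst.comp unpair))
  have hnx : Primrec fun p : (ℕ × (ℕ × ℕ × List (En n))) × ℕ => ((p.2.unpair.2, p.2.unpair.1,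
      (p.2.unpair.1, tw n p.1.1, ty p.1.1, p.1.2.2.1) :: p.1.2.2.2) : ℕ × ℕ × List (En n)) :=
    (snd.comp (unpair.comp snd)).pair ((fst.comp (unpair.comp snd)).pair (list_cons.comp
      ((fst.comp (unpair.comp snd)).pair ((hw.comp (fst.comp fst)).pair
        ((hy.comp (fst.comp fst)).pair (fst.comp (snd.comp (snd.comp fst))))))
      (snd.comp (snd.comp (snd.comp fst)))))
  have hPprim : PrimrecPred fun p : (ℕ × (ℕ × ℕ × List (En n))) × ℕ => P p.1 p.2 := by
    have he : Primrec fun p : (ℕ × (ℕ × ℕ × List (En n))) × ℕ => p.1.2.2.1 :=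
      fst.comp (snd.comp (snd.comp fst))
    have hi : Primrec fun p : (ℕ × (ℕ × ℕ × List (En n))) × ℕ => p.2.unpair.1 :=
      fst.comp (unpair.comp snd)
    have ht : Primrec fun p : (ℕ × (ℕ × ℕ × List (En n))) × ℕ => p.1.1 := fst.comp fst
    have h1 : PrimrecPred fun p : (ℕ × (ℕ × ℕ × List (En n))) × ℕ => Bd p.1.2.2.1 p.1.2.2.2 :=
      primrec_bd.comp he (snd.comp (snd.comp (snd.comp fst)))
    have h2 := nat_le.comp (hy.comp ht) he
    have h3 : PrimrecPred fun p : (ℕ × (ℕ × ℕ × List (En n))) × ℕ =>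
        Check out p.1.2.1 p.1.2.2.1 p.1.2.2.2 := (primrec_check hprim).comp (snd.comp fst)
    have h4 := nat_lt.comp he hi
    have h5 : PrimrecPred fun p : (ℕ × (ℕ × ℕ × List (En n))) × ℕ => Check out p.2.unpair.2
        p.2.unpair.1 ((p.2.unpair.1, tw n p.1.1, ty p.1.1, p.1.2.2.1) :: p.1.2.2.2) :=
      (primrec_check hprim).comp hnx
    have h6 := hprim.comp ht (hw.comp ht)
    have h7 := nat_le.comp (nat_mul.comp (const 2) (hpow.comp (const 2) (nat_sub.comp hi he)))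
      (primrec_R hi hi (hy.comp ht))
    exact ((h1.and (h2.and h3)).not.or (h4.and (h5.and (h6.not.or h7)))).of_eq fun p => by
      simp only [P, imp_iff_not_or]
  have hPex : ∀ a, ∃ z, P a z := by
    intro a
    by_cases h : Bd a.2.2.1 a.2.2.2 ∧ ty a.1 ≤ a.2.2.1 ∧ Check out a.2.1 a.2.2.1 a.2.2.2
    · obtain ⟨i, hi, ⟨d, hd⟩, h1⟩ := (h.2.2.cons hsound).exists_next h.1 (tw n a.1) h.2.1
      obtain ⟨s, hs⟩ := (hd.cons (e := i) fun x hx => by
        rcases List.mem_cons.1 hx with rfl | hx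
        · exact ⟨le_rfl, h.2.1.trans hi.le, hi.le⟩
        · have := h.1 x hx
          omega).check hcompl hmono
      refine ⟨Nat.pair i s, fun _ => ?_⟩
      simp only [Nat.unpair_pair]
      exact ⟨hi, hs, fun ho => h1 (hsound _ _ ho)⟩
    · exact ⟨0, fun h' => absurd h' h⟩
  let f : ℕ × (ℕ × ℕ × List (En n)) → ℕ := fun a => Nat.find (hPex a)
  have hf : Computable f := Computable.find hPprim.computablePred hPex
  let nx : ℕ × (ℕ × ℕ × List (En n)) → ℕ × ℕ × List (En n) := fun a => ((f a).unpair.2,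
    (f a).unpair.1, ((f a).unpair.1, tw n a.1, ty a.1, a.2.2.1) :: a.2.2.2)
  have hstep : Computable nx := hnx.to_comp.comp (Computable.id.pair hf)
  let st : ℕ → ℕ × ℕ × List (En n) := fun t => Nat.rec (0, 0, []) (fun t σ => nx (t, σ)) t
  have hst : Computable st :=
    Computable.nat_rec (f := fun t : ℕ => t) (g := fun _ => ((0, 0, []) : ℕ × ℕ × List (En n)))
      (h := fun _ a => nx a) Computable.id (Computable.const _) (hstep.comp Computable.snd).to₂
  have hinv : ∀ t, t ≤ (st t).2.1 ∧ Bd (st t).2.1 (st t).2.2 ∧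
      Check out (st t).1 (st t).2.1 (st t).2.2 := by
    intro t
    induction t with
    | zero =>
      refine ⟨le_rfl, fun x hx => absurd hx List.not_mem_nil, fun a ha b hb p _ h => ?_⟩
      obtain rfl : a = 0 := Nat.lt_one_iff.1 ha
      obtain rfl : b = 0 := Nat.lt_one_iff.1 hb
      rw [R_self] at h
      exact absurd h (Nat.not_lt_zero _)
    | succ t ih =>
      have h0 := (ty_le t).trans ih.1
      obtain ⟨h1, h2, -⟩ := Nat.find_spec (hPex (t, st t)) ⟨ih.2.1, h0, ih.2.2⟩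
      refine ⟨Nat.succ_le_of_lt (ih.1.trans_lt h1), fun x hx => ?_, h2⟩
      rcases List.mem_cons.1 hx with rfl | hx
      · exact ⟨le_rfl, h0.trans h1.le, h1.le⟩
      · obtain ⟨b1, b2, b3⟩ := ih.2.1 x hx
        exact ⟨b1.trans h1.le, b2.trans h1.le, b3.trans h1.le⟩
  have hmem : ∀ T, ∀ t < T, ((st (t + 1)).2.1, tw n t, ty t, (st t).2.1) ∈ (st T).2.2 := by
    intro T
    induction T with
    | zero => exact fun t ht => absurd ht (Nat.not_lt_zero _)
    | succ T ih =>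
      intro t ht
      rcases (Nat.le_of_lt_succ ht).lt_or_eq with h | rfl
      · exact List.mem_cons_of_mem _ (ih t h)
      · exact List.mem_cons_self
  refine ⟨fun t => (st t).2.1, Computable.fst.comp (Computable.snd.comp hst), fun t => (hinv t).1,
    fun T => ?_, fun w hw => ?_⟩
  · obtain ⟨i, -, ⟨d, hd⟩, -⟩ := ((hinv T).2.2.cons hsound).exists_next (hinv T).2.1 []
      (Nat.zero_le _)
    exact ⟨d, hd.len, hd.base, fun t ht => hd.le _ (List.mem_cons_of_mem _ (hmem T t ht))⟩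
  · obtain ⟨s, hs⟩ := hcompl w hw
    refine ⟨s, fun t hst hwt => ?_⟩
    have h0 := (ty_le t).trans (hinv t).1
    obtain ⟨h1, -, h2⟩ := Nat.find_spec (hPex (t, st t)) ⟨(hinv t).2.1, h0, (hinv t).2.2⟩
    have h3 : 2 * 2 ^ ((st (t + 1)).2.1 - (st t).2.1) ≤ R (st (t + 1)).2.1 (st (t + 1)).2.1 (ty t) :=
      h2 (hmono _ _ _ hst (hwt ▸ hs))
    have h4 : (st t).2.1 ≤ (st (t + 1)).2.1 := h1.le
    dsimp only
    rw [rho_eq le_rfl (h0.trans h4), ← mul_one_div, ← two_pow_div h4, ← mul_div_assoc]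
    gcongr
    exact_mod_cast h3

end Pool.Agent.Lib.MP_b0cc33_lc.Ur
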