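import Pool.Agent.Lib.MP_b0cc33_lc.UrDefs

set_option autoImplicit false

/-!
Programs without oracle calls, and the word problem of groups of computable isometries.
-/

namespace Pool.Agent.Lib.MP_b0cc33_lc.Ur

open Computable

/-- The program without oracle calls given by a code. -/
def ofCode : Nat.Partrec.Code → Prog
  | .zero => .zero
  | .succ => .succ
  | .left => .left
  | .right => .right
  | .pair cf cg => .pair (ofCode cf) (ofCode cg)
  | .comp cf cg => .comp (ofCode cf) (ofCode cg)
  | .prec cf cg => .prec (ofCode cf) (ofCode cg)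
  | .rfind' cf => .rfind (ofCode cf)

theorem eval_ofCode (p : ℕ → ℕ) (c : Nat.Partrec.Code) : (ofCode c).eval p = c.eval := by
  induction c with
  | zero => rfl
  | succ => rfl
  | left => rfl
  | right => rfl
  | pair cf cg hf hg => rw [ofCode, Prog.eval, hf, hg]; rfl
  | comp cf cg hf hg => rw [ofCode, Prog.eval, hf, hg]; rfl
  | prec cf cg hf hg => rw [ofCode, Prog.eval, hf, hg]; rfl
  | rfind' cf hf => rw [ofCode, Prog.eval, hf]; rfl

theorem partrec_eval (c : Prog) : Partrec fun a : ℕ × ℕ => c.eval (fun _ => a.1) a.2 := by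
  induction c with
  | zero => exact (Partrec.nat_iff.2 Nat.Partrec.zero).comp snd
  | succ => exact (Partrec.nat_iff.2 Nat.Partrec.succ).comp snd
  | left => exact (Partrec.nat_iff.2 Nat.Partrec.left).comp snd
  | right => exact (Partrec.nat_iff.2 Nat.Partrec.right).comp snd
  | oracle => exact fst.partrec
  | pair cf cg hf hg =>
    refine (hf.bind ((hg.comp fst).map (Primrec₂.natPair.to_comp.comp (snd.comp fst) snd).to₂).to₂).of_eq
      fun a => ?_
    simp [Prog.eval, Seq.seq, Part.map_eq_map]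
  | comp cf cg hf hg => exact hg.bind (hf.comp ((fst.comp fst).pair snd)).to₂
  | prec cf cg hf hg =>
    have h1 : Computable fun a : ℕ × ℕ => a.2.unpair.1 := fst.comp (unpair.comp snd)
    exact Partrec.nat_rec (snd.comp (unpair.comp snd)) (hf.comp (fst.pair h1))
      (hg.comp ((fst.comp fst).pair (Primrec₂.natPair.to_comp.comp (h1.comp fst)
        (Primrec₂.natPair.to_comp.comp (fst.comp snd) (snd.comp snd))))).to₂
  | rfind cf hf =>
    have h1 : Computable fun a : ℕ × ℕ => a.2.unpair.1 := fst.comp (unpair.comp snd)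
    have h2 : Computable fun a : ℕ × ℕ => a.2.unpair.2 := snd.comp (unpair.comp snd)
    have h3 : Computable₂ fun (_ : (ℕ × ℕ) × ℕ) (m : ℕ) => decide (m = 0) :=
      ((Primrec.eq.comp Primrec.snd (Primrec.const 0)).decide.to_comp).to₂
    exact (Partrec.rfind ((hf.comp ((fst.comp fst).pair (Primrec₂.natPair.to_comp.comp (h1.comp fst)
      (Primrec.nat_add.to_comp.comp snd (h2.comp fst))))).map h3).to₂).map
      (Primrec.nat_add.to_comp.comp snd (h2.comp fst)).to₂

theorem IsComputableMap.exists_fun {X : Type} [MetricSpace X] {s : ℕ → X} {f : X → X}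
    (h : IsComputableMap s f) : ∃ c : Nat.Partrec.Code, ∃ q : ℕ → ℕ, (∀ m, q m ∈ c.eval m) ∧
      ∀ i k, dist (s (q (Nat.pair i k))) (f (s i)) ≤ 1 / 2 ^ k := by
  obtain ⟨c, hc⟩ := h
  choose q h1 h2 using fun i => hc (s i) (fun _ => i) fun k => by
    rw [dist_self]
    positivity
  obtain ⟨c', hc'⟩ := Nat.Partrec.Code.exists_code.1
    (Partrec.nat_iff.1 ((partrec_eval c).comp unpair))
  refine ⟨c', fun m => q m.unpair.1 m.unpair.2, fun m => ?_, fun i k => ?_⟩
  · rw [hc']
    exact Part.eq_some_iff.1 (h1 _ _)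
  · simpa only [Nat.unpair_pair] using h2 i k

theorem re_of_action {X : Type} [MetricSpace X] {s : ℕ → X} (hs : IsComputablePresentation s)
    {G : Type*} [Group G] {n : ℕ} (gen : Fin n → G) (ψ : G →* (X ≃ᵢ X))
    (hψ : Function.Injective ψ) (h : ∀ g, IsComputableMap s (ψ g)) :
    REPred fun w : List (Fin n × Bool) => wordVal gen w ≠ 1 := by
  obtain ⟨hd, a, b, ha, hb, hab⟩ := hs
  choose c q hq hq' using fun o : Option (Fin n × Bool) =>
    (h (wordVal gen o.toList)⁻¹).exists_fun
  have hH : Computable₂ q := (Nat.Partrec.Code.eval_part.comp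
    ((Primrec.dom_finite c).to_comp.comp fst) snd).of_eq_tot fun p => hq p.1 p.2
  obtain ⟨J, hJ⟩ : ∃ J : List (Fin n × Bool) → ℕ → ℕ → ℕ, J = fun w z m =>
    Nat.rec z.unpair.1 (fun m j => q w[m]? (Nat.pair j z.unpair.2)) m := ⟨_, rfl⟩
  have hJc : Computable fun p : List (Fin n × Bool) × ℕ => J p.1 p.2 p.1.length := by
    have e1 : Computable fun p : List (Fin n × Bool) × ℕ => p.1.length := list_length.comp fst
    have e2 : Computable fun p : List (Fin n × Bool) × ℕ => p.2.unpair.1 :=
      fst.comp (unpair.comp snd)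
    have e3 : Computable fun r : (List (Fin n × Bool) × ℕ) × ℕ × ℕ => r.1.1[r.2.1]? :=
      list_getElem?.comp (fst.comp fst) (fst.comp snd)
    have e4 : Computable fun r : (List (Fin n × Bool) × ℕ) × ℕ × ℕ =>
        Nat.pair r.2.2 r.1.2.unpair.2 :=
      Primrec₂.natPair.to_comp.comp (snd.comp snd) (snd.comp (unpair.comp (snd.comp fst)))
    have e5 : Computable₂ fun (p : List (Fin n × Bool) × ℕ) (r : ℕ × ℕ) =>
        q p.1[r.1]? (Nat.pair r.2 p.2.unpair.2) := hH.comp e3 e4
    exact (Computable.nat_rec e1 e2 e5).of_eq fun p => by rw [hJ]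
  have hJb : ∀ w z m, dist (s (J w z m)) (ψ (wordVal gen (w.take m))⁻¹ (s z.unpair.1)) ≤
      m / 2 ^ z.unpair.2 := by
    intro w z m
    induction m with
    | zero => simp [hJ, wordVal]
    | succ m ih =>
      have h1 : J w z (m + 1) = q w[m]? (Nat.pair (J w z m) z.unpair.2) := by rw [hJ]
      have h2 : wordVal gen (w.take (m + 1)) = wordVal gen (w.take m) * wordVal gen w[m]?.toList := by
        rw [List.take_add_one, wordVal, List.map_append, List.prod_append]
        rfl
      rw [h1, h2, mul_inv_rev, map_mul, IsometryEquiv.mul_apply]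
      refine (dist_triangle _ _ _).trans ((add_le_add (hq' _ _ _)
        (((ψ _).dist_eq _ _).le.trans ih)).trans (le_of_eq ?_))
      push_cast
      ring
  have hpow : Primrec₂ (fun a b : ℕ => a ^ b) := Primrec₂.unpaired'.1 Nat.Primrec.pow
  have ht : Computable fun p : List (Fin n × Bool) × ℕ =>
      (p.2.unpair.1, J p.1 p.2 p.1.length, p.2.unpair.2) :=
    (fst.comp (unpair.comp snd)).pair (hJc.pair (snd.comp (unpair.comp snd)))
  have hQ : Computable₂ fun (w : List (Fin n × Bool)) (z : ℕ) => decide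
      ((w.length + 1) * (b (z.unpair.1, J w z w.length, z.unpair.2) + 1) <
        a (z.unpair.1, J w z w.length, z.unpair.2) * 2 ^ z.unpair.2) :=
    (Primrec.nat_lt.decide.to_comp.comp (Primrec.nat_mul.to_comp.comp
      (succ.comp (list_length.comp fst)) (succ.comp (hb.comp ht))) (Primrec.nat_mul.to_comp.comp
      (ha.comp ht) (hpow.to_comp.comp (const 2) (snd.comp (unpair.comp snd))))).to₂
  refine (Partrec.rfind hQ.partrec₂).dom_re.of_eq fun w => ?_
  have hr : ∀ l A B k : ℕ, (l + 1) * (B + 1) < A * 2 ^ k ↔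
      ((l : ℝ) + 1) / 2 ^ k < (A : ℝ) / (B + 1) := fun l A B k => by
    rw [div_lt_div_iff₀ (by positivity) (by positivity)]
    exact_mod_cast Iff.rfl
  simp only [Nat.rfind_dom, PFun.coe_val, Part.mem_some_iff, true_eq_decide_iff, Part.some_dom,
    implies_true, and_true, hr]
  constructor
  · rintro ⟨z, hz⟩ h1
    have h2 := hJb w z w.length
    have h3 := (abs_le.1 (hab z.unpair.1 (J w z w.length) z.unpair.2)).1
    rw [List.take_length, h1, inv_one, map_one, IsometryEquiv.coe_one, id, dist_comm] at h2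
    rw [add_div] at hz
    linarith
  · intro h1
    obtain ⟨i, hi⟩ : ∃ i, ψ (wordVal gen w)⁻¹ (s i) ≠ s i := by
      by_contra h2
      refine h1 (inv_eq_one.1 ((injective_iff_map_eq_one ψ).1 hψ _ (IsometryEquiv.ext fun x => ?_)))
      exact hd.induction_on x (isClosed_eq (ψ _).continuous continuous_id) fun i =>
        not_not.1 fun h3 => h2 ⟨i, h3⟩
    have h2 : (0 : ℝ) < 2 * w.length + 2 := by positivity
    obtain ⟨k, hk⟩ := exists_pow_lt_of_lt_one (div_pos (dist_pos.2 hi) h2)
      (show (1 / 2 : ℝ) < 1 by norm_num)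
    refine ⟨Nat.pair i k, ?_⟩
    have h3 := hJb w (Nat.pair i k) w.length
    have h4 := (abs_le.1 (hab i (J w (Nat.pair i k) w.length) k)).2
    have h5 := dist_triangle_left (ψ (wordVal gen w)⁻¹ (s i)) (s i) (s (J w (Nat.pair i k) w.length))
    rw [one_div_pow, lt_div_iff₀ h2] at hk
    rw [dist_comm (s (J w (Nat.pair i k) w.length)) (s i)] at h5
    simp only [Nat.unpair_pair, List.take_length] at h3 ⊢
    have h6 : (1 : ℝ) / 2 ^ k * (2 * w.length + 2) = 2 * (w.length / 2 ^ k) + 2 * (1 / 2 ^ k) := by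
      ring
    rw [add_div]
    linarith

end Pool.Agent.Lib.MP_b0cc33_lc.Ur
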