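import Mathlib

set_option autoImplicit false

namespace Pool.Agent.Lib.MP_b0cc33_lc.Ur

/-- Turing functionals: programs for the Kleene schemes with one extra instruction `oracle`. -/
inductive Prog : Type
  | zero : Prog
  | succ : Prog
  | left : Prog
  | right : Prog
  | oracle : Prog
  | pair : Prog → Prog → Prog
  | comp : Prog → Prog → Prog
  | prec : Prog → Prog → Prog
  | rfind : Prog → Prog

/-- The function computed by a program with oracle `p`; apart from `oracle`, the clauses are those
of `Nat.Partrec.Code.eval`. -/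
def Prog.eval (p : ℕ → ℕ) : Prog → ℕ →. ℕ
  | .zero => pure 0
  | .succ => Nat.succ
  | .left => ↑fun n : ℕ => n.unpair.1
  | .right => ↑fun n : ℕ => n.unpair.2
  | .oracle => ↑p
  | .pair cf cg => fun n => Nat.pair <$> cf.eval p n <*> cg.eval p n
  | .comp cf cg => fun n => cg.eval p n >>= cf.eval p
  | .prec cf cg =>
    Nat.unpaired fun a n =>
      n.rec (cf.eval p a) fun y IH => do
        let i ← IH
        cg.eval p (Nat.pair a (Nat.pair y i))
  | .rfind cf =>
    Nat.unpaired fun a m =>
      (Nat.rfind fun n => (fun m => m = 0) <$> cf.eval p (Nat.pair a (n + m))).map (· + m)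

/-- The sequence `s` is dense and the reals `dist (s i) (s j)` are computable uniformly in `i, j`:
`a / (b + 1)` is a computable rational approximation within `2 ^ (-k)`. -/
def IsComputablePresentation {X : Type} [MetricSpace X] (s : ℕ → X) : Prop :=
  DenseRange s ∧ ∃ a b : ℕ × ℕ × ℕ → ℕ, Computable a ∧ Computable b ∧
    ∀ i j k : ℕ, |dist (s i) (s j) - (a (i, j, k) : ℝ) / (b (i, j, k) + 1)| ≤ 1 / 2 ^ k

/-- `p` is a name of the point `x`. -/
def IsName {X : Type} [MetricSpace X] (s : ℕ → X) (p : ℕ → ℕ) (x : X) : Prop :=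
  ∀ k : ℕ, dist (s (p k)) x ≤ 1 / 2 ^ k

/-- One Turing functional transforms every name of every point `x` into a name of `f x`. -/
def IsComputableMap {X : Type} [MetricSpace X] (s : ℕ → X) (f : X → X) : Prop :=
  ∃ c : Prog, ∀ (x : X) (p : ℕ → ℕ), IsName s p x →
    ∃ q : ℕ → ℕ, (∀ k, c.eval p k = Part.some (q k)) ∧ IsName s q (f x)

/-- The value of a word in the generators `gen i` (letter `(i, true)`) and their inverses
(letter `(i, false)`). -/
def wordVal {G : Type*} [Group G] {n : ℕ} (gen : Fin n → G) (w : List (Fin n × Bool)) : G :=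
  (w.map fun a => cond a.2 (gen a.1) (gen a.1)⁻¹).prod

/-- The one-point extension property: distances `f a` to finitely many points `x a` that are
compatible with the triangle inequality are realised by a point. -/
def HasExtension (X : Type) [MetricSpace X] : Prop :=
  ∀ (m : ℕ) (x : Fin m → X) (f : Fin m → ℝ),
    (∀ a b, |f a - f b| ≤ dist (x a) (x b) ∧ dist (x a) (x b) ≤ f a + f b) →
      ∃ z, ∀ a, dist z (x a) = f a

end Pool.Agent.Lib.MP_b0cc33_lc.Ur
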