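import Pool.Agent.Lib.MP_b0cc33_lc.UrRat

set_option autoImplicit false

/-!
The completion of the countable space has the one-point extension property.
-/

namespace Pool.Agent.Lib.MP_b0cc33_lc.Ur

open Filter Topology

/-- The natural numbers with the distance `rho`. -/
def U0 : Type := ℕ

noncomputable instance : PseudoMetricSpace U0 where
  dist := rho
  dist_self := rho_self
  dist_comm := rho_comm
  dist_triangle := rho_tri

/-- The completion. -/
abbrev UU : Type := UniformSpace.Completion U0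

/-- The dense sequence. -/
noncomputable def ss (i : ℕ) : UU := ((show U0 from i : U0) : UU)

theorem dist_ss (i j : ℕ) : dist (ss i) (ss j) = rho i j := UniformSpace.Completion.dist_eq _ _

theorem dense_ss : DenseRange ss := UniformSpace.Completion.denseRange_coe (α := U0)

theorem approx {F : UU → ℝ} (h1 : ∀ u v, F v ≤ F u + dist u v) (h2 : ∀ u v, dist u v ≤ F u + F v)
    {ι : Type} [Finite ι] (x : ι → UU) {ε : ℝ} (hε : 0 < ε) :
    ∃ z, ∀ a, |dist z (x a) - F (x a)| ≤ ε := by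
  choose y hy using fun a => dense_ss.exists_dist_lt (x a) (show 0 < ε / 4 by positivity)
  obtain ⟨e₁, he₁⟩ := Finite.exists_le y
  obtain ⟨e₂, he₂⟩ := exists_pow_lt_of_lt_one (show 0 < ε / 2 by positivity)
    (show (1 / 2 : ℝ) < 1 by norm_num)
  obtain ⟨e, h3, h4⟩ : ∃ e, e₁ ≤ e ∧ (1 : ℝ) / 2 ^ e ≤ ε / 2 := by
    refine ⟨e₁ + e₂, by omega, le_trans ?_ he₂.le⟩
    rw [one_div_pow]
    gcongr
    · norm_num
    · omega
  have h0 : ∀ u, 0 ≤ F u := fun u => by linarith [h2 u u, dist_nonneg (x := u) (y := u)]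
  have hp : (0 : ℝ) < 2 ^ e := by positivity
  have hR : ∀ a ≤ e, ∀ b ≤ e, (R e a b : ℝ) = dist (ss a) (ss b) * 2 ^ e := fun a ha b hb => by
    rw [dist_ss, rho_eq ha hb, div_mul_cancel₀ _ hp.ne']
  obtain ⟨n, -, hn⟩ := exists_ext e (fun j => ⌈F (ss j) * 2 ^ e⌉₊) (fun a ha b hb => by
    have k1 := Nat.le_ceil (F (ss a) * 2 ^ e)
    have k2 := Nat.le_ceil (F (ss b) * 2 ^ e)
    have k3 := mul_le_mul_of_nonneg_right (h2 (ss a) (ss b)) hp.le
    rw [← hR a ha b hb, add_mul] at k3
    exact_mod_cast k3.trans (add_le_add k1 k2)) (fun a ha b hb => by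
    have k1 := Nat.le_ceil (F (ss a) * 2 ^ e)
    have k3 := mul_le_mul_of_nonneg_right (h1 (ss a) (ss b)) hp.le
    rw [add_mul, ← hR a ha b hb] at k3
    refine Nat.ceil_le.2 ?_
    push_cast
    linarith)
  refine ⟨ss n, fun a => ?_⟩
  have k0 := (hn (y a) ((he₁ a).trans h3)).2
  rw [← dist_ss] at k0
  have k1 : F (ss (y a)) ≤ dist (ss (y a)) (ss n) := by
    rw [k0, le_div_iff₀ hp]
    exact Nat.le_ceil _
  have k2 : dist (ss (y a)) (ss n) ≤ F (ss (y a)) + 1 / 2 ^ e := by
    rw [k0, div_le_iff₀ hp, add_mul, one_div_mul_cancel hp.ne']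
    exact (Nat.ceil_lt_add_one (mul_nonneg (h0 _) hp.le)).le
  have k3 := h1 (x a) (ss (y a))
  have k4 := h1 (ss (y a)) (x a)
  have k5 := dist_triangle_right (ss n) (ss (y a)) (x a)
  have k6 := dist_triangle_left (ss n) (x a) (ss (y a))
  have k7 := hy a
  rw [dist_comm (ss (y a)) (x a)] at k4 k5 k6
  rw [dist_comm (ss n) (ss (y a))] at k5
  rw [abs_le]
  constructor <;> linarith

theorem extension (m : ℕ) (x : Fin m → UU) (f : Fin m → ℝ)
    (h : ∀ a b, |f a - f b| ≤ dist (x a) (x b) ∧ dist (x a) (x b) ≤ f a + f b) :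
    ∃ z, ∀ a, dist z (x a) = f a := by
  rcases isEmpty_or_nonempty (Fin m) with hm | hm
  · exact ⟨ss 0, fun a => hm.elim a⟩
  obtain ⟨F, hF⟩ : ∃ F : UU → ℝ, F = fun u => ⨅ a, f a + dist (x a) u := ⟨_, rfl⟩
  have hle : ∀ u a, F u ≤ f a + dist (x a) u := fun u a =>
    hF ▸ ciInf_le (Finite.bddBelow_range _) a
  have hex : ∀ u, ∃ a, f a + dist (x a) u = F u := fun u => hF ▸ exists_eq_ciInf_of_finite
  have h1 : ∀ u v, F v ≤ F u + dist u v := fun u v => by
    obtain ⟨a, ha⟩ := hex u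
    linarith [hle v a, dist_triangle (x a) u v]
  have h2 : ∀ u v, dist u v ≤ F u + F v := fun u v => by
    obtain ⟨a, ha⟩ := hex u
    obtain ⟨b, hb⟩ := hex v
    linarith [(h a b).2, dist_triangle_left u v (x a), dist_triangle (x a) (x b) v]
  have h3 : ∀ a, F (x a) = f a := fun a => by
    obtain ⟨b, hb⟩ := hex (x a)
    have := hle (x a) a
    rw [dist_self] at this
    linarith [(abs_le.1 (h b a).1).1]
  have step : ∀ (k : ℕ) (z : UU), ∃ z', (∀ a, |dist z (x a) - f a| ≤ (1 / 2) ^ k) →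
      (∀ a, |dist z' (x a) - f a| ≤ (1 / 2) ^ (k + 1)) ∧ dist z z' ≤ 2 * (1 / 2) ^ k := by
    intro k z
    by_cases hz : ∀ a, |dist z (x a) - f a| ≤ (1 / 2) ^ k
    swap
    · exact ⟨z, fun h => absurd h hz⟩
    have hp : (0 : ℝ) < (1 / 2) ^ k := by positivity
    have h4 : ∀ u, dist z u ≤ F u + (1 / 2) ^ k := fun u => by
      obtain ⟨a, ha⟩ := hex u
      linarith [(abs_le.1 (hz a)).2, dist_triangle z (x a) u]
    obtain ⟨z', hz'⟩ := approx (F := fun u => min (F u) ((1 / 2) ^ k + dist z u)) (fun u v => by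
      rw [← min_add_add_right]
      exact min_le_min (h1 u v) (by linarith [dist_triangle z u v])) (fun u v => by
      have := dist_triangle_left u v z
      rcases min_choice (F u) ((1 / 2) ^ k + dist z u) with e1 | e1 <;>
        rcases min_choice (F v) ((1 / 2) ^ k + dist z v) with e2 | e2 <;> rw [e1, e2] <;>
        linarith [h2 u v, h4 u, h4 v]) (fun o : Option (Fin m) => o.elim z x)
      (show (0 : ℝ) < (1 / 2) ^ (k + 1) by positivity)
    refine ⟨z', fun _ => ⟨fun a => ?_, ?_⟩⟩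
    · have h5 := hz' (some a)
      simp only [Option.elim, h3] at h5
      rwa [min_eq_left (by linarith [(abs_le.1 (hz a)).1])] at h5
    · have h5 := (abs_le.1 (hz' none)).2
      have h6 := min_le_right (F z) ((1 / 2) ^ k + dist z z)
      simp only [Option.elim, pow_succ, dist_self] at h5 h6
      rw [dist_comm]
      linarith
  choose nx hnx using step
  obtain ⟨z₀, hz₀⟩ := approx h1 h2 x one_pos
  let z : ℕ → UU := fun k => Nat.rec z₀ nx k
  have hz : ∀ k a, |dist (z k) (x a) - f a| ≤ (1 / 2) ^ k := by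
    intro k
    induction k with
    | zero => exact fun a => h3 a ▸ hz₀ a |>.trans (pow_zero _).ge
    | succ k ih => exact (hnx k (z k) ih).1
  obtain ⟨l, hl⟩ := cauchySeq_tendsto_of_complete (cauchySeq_of_le_geometric (1 / 2) 2
    (by norm_num) fun k => (hnx k (z k) (hz k)).2)
  refine ⟨l, fun a => sub_eq_zero.1 (abs_nonpos_iff.1 ?_)⟩
  exact le_of_tendsto_of_tendsto' (((hl.dist tendsto_const_nhds).sub_const (f a)).abs)
    (tendsto_pow_atTop_nhds_zero_of_lt_one (by norm_num) (by norm_num)) fun k => hz k a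

end Pool.Agent.Lib.MP_b0cc33_lc.Ur
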