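import Mathlib

set_option autoImplicit false

/-!
A computable countable pseudometric space with dyadic distances in which every dyadic Katetov
function on an initial segment is realised by a point.
-/

namespace Pool.Agent.Lib.MP_b0cc33_lc.Ur

open Primrec

/-- The least of `x` and the members of `l`. -/
def lmin (l : List ℕ) (x : ℕ) : ℕ := l.foldr min x

theorem lmin_le (l : List ℕ) (x : ℕ) : ∀ a ∈ x :: l, lmin l x ≤ a := by
  induction l with
  | nil => simp [lmin]
  | cons b l ih =>
    intro a ha
    have h : lmin (b :: l) x = min b (lmin l x) := rfl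
    rw [h]
    simp only [List.mem_cons] at ha ih
    rcases ha with ha | ha | ha
    · exact (min_le_right _ _).trans (ih a (Or.inl ha))
    · exact ha ▸ min_le_left _ _
    · exact (min_le_right _ _).trans (ih a (Or.inr ha))

theorem lmin_mem (l : List ℕ) (x : ℕ) : lmin l x ∈ x :: l := by
  induction l with
  | nil => simp [lmin]
  | cons b l ih =>
    have h : lmin (b :: l) x = min b (lmin l x) := rfl
    rw [h]
    simp only [List.mem_cons] at ih ⊢
    rcases min_choice b (lmin l x) with h1 | h1 <;> rw [h1] <;> tauto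

/-- The distance read from a table, in units of `2 ^ (-e)`. -/
def tab (T : List (List ℕ)) (e a b : ℕ) : ℕ :=
  (T.getD (max a b) []).getD (min a b) 0 * 2 ^ (e - max a b)

/-- The prescribed distances coded by `n`. -/
def cand (n : ℕ) : List ℕ :=
  (Denumerable.ofNat (List ℕ) n.unpair.2).map (· * 2 ^ (n - n.unpair.1))

/-- The prescribed distances are admissible. -/
def Ok (T : List (List ℕ)) : Prop :=
  ∀ a < (cand T.length).length, ∀ b < (cand T.length).length,
    tab T T.length a b ≤ (cand T.length).getD a 0 + (cand T.length).getD b 0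

instance : DecidablePred Ok := fun T => by unfold Ok; infer_instance

/-- The distances that are used. -/
def used (T : List (List ℕ)) : List ℕ := if Ok T then cand T.length else []

/-- The distance from the new point to the point `j`. -/
def newd (T : List (List ℕ)) (j : ℕ) : ℕ :=
  lmin ((List.range (used T).length).map fun a => (used T).getD a 0 + tab T T.length a j)
    ((used T).getD 0 0 + tab T T.length 0 j)

/-- The distances from the point `n` to the earlier points. -/
def row (n : ℕ) : List ℕ :=
  (List.range n).map (newd ((List.range n).attach.map fun k => row k.1))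
decreasing_by exact List.mem_range.1 k.2

theorem row_eq (n : ℕ) : row n = (List.range n).map (newd ((List.range n).map row)) := by
  rw [row, List.attach_map_val]

theorem hpow : Primrec₂ (fun a b : ℕ => a ^ b) := Primrec₂.unpaired'.1 Nat.Primrec.pow

theorem primrec_ball {α : Type} [Primcodable α] {P : ℕ → α → Prop} (h : PrimrecRel P) {f : α → ℕ}
    (hf : Primrec f) : PrimrecPred fun x => ∀ b < f x, P b x :=
  (h.forall_mem_list.comp (list_range.comp hf) Primrec.id).of_eq (by simp)

theorem primrec_lmin : Primrec₂ lmin :=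
  list_foldr fst snd (nat_min.comp (fst.comp snd) (snd.comp snd)).to₂

theorem primrec_tab {α : Type} [Primcodable α] {T : α → List (List ℕ)} {e a b : α → ℕ}
    (hT : Primrec T) (he : Primrec e) (ha : Primrec a) (hb : Primrec b) :
    Primrec fun x => tab (T x) (e x) (a x) (b x) :=
  nat_mul.comp ((list_getD 0).comp ((list_getD []).comp hT (nat_max.comp ha hb))
    (nat_min.comp ha hb)) (hpow.comp (const 2) (nat_sub.comp he (nat_max.comp ha hb)))

theorem primrec_cand : Primrec cand :=
  list_map ((Primrec.ofNat (List ℕ)).comp (snd.comp unpair))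
    (nat_mul.comp snd (hpow.comp (const 2) (nat_sub.comp fst (fst.comp (unpair.comp fst))))).to₂

theorem primrec_ok : PrimrecPred Ok := by
  have hc : Primrec fun T : List (List ℕ) => cand T.length := primrec_cand.comp list_length
  have h1 : PrimrecRel fun (b : ℕ) (p : ℕ × List (List ℕ)) =>
      tab p.2 p.2.length p.1 b ≤ (cand p.2.length).getD p.1 0 + (cand p.2.length).getD b 0 :=
    nat_le.comp (primrec_tab (snd.comp snd) (list_length.comp (snd.comp snd)) (fst.comp snd) fst)
      (nat_add.comp ((list_getD 0).comp (hc.comp (snd.comp snd)) (fst.comp snd))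
        ((list_getD 0).comp (hc.comp (snd.comp snd)) fst))
  have h2 : PrimrecRel fun (a : ℕ) (T : List (List ℕ)) => ∀ b < (cand T.length).length,
      tab T T.length a b ≤ (cand T.length).getD a 0 + (cand T.length).getD b 0 :=
    primrec_ball h1 (list_length.comp (hc.comp snd))
  exact primrec_ball h2 (list_length.comp hc)

theorem primrec_used : Primrec used :=
  Primrec.ite primrec_ok (primrec_cand.comp list_length) (const [])

theorem primrec_newd : Primrec₂ newd :=
  primrec_lmin.comp (list_map (list_range.comp (list_length.comp (primrec_used.comp fst)))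
    (nat_add.comp ((list_getD 0).comp (primrec_used.comp (fst.comp fst)) snd)
      (primrec_tab (fst.comp fst) (list_length.comp (fst.comp fst)) snd (snd.comp fst))).to₂)
    (nat_add.comp ((list_getD 0).comp (primrec_used.comp fst) (const 0))
      (primrec_tab fst (list_length.comp fst) (const 0) snd))

theorem primrec_row : Primrec row := by
  have h : Primrec₂ fun (_ : Unit) (T : List (List ℕ)) =>
      some ((List.range T.length).map (newd T)) :=
    (option_some.comp (list_map (list_range.comp (list_length.comp snd))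
      (primrec_newd.comp (snd.comp fst) snd).to₂)).to₂
  exact (nat_strong_rec (fun (_ : Unit) n => row n) h fun _ n => by
    rw [List.length_map, List.length_range, ← row_eq]).comp (const ()) Primrec.id

/-- The distance of `a` and `b` in units of `2 ^ (-e)`, for `a, b ≤ e`. -/
def R0 (e a b : ℕ) : ℕ := (row (max a b)).getD (min a b) 0 * 2 ^ (e - max a b)

theorem tab_eq {n a b : ℕ} (e : ℕ) (ha : a < n) (hb : b < n) :
    tab ((List.range n).map row) e a b = R0 e a b := by
  have h : max a b < n := max_lt ha hb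
  simp [tab, R0, List.getD_eq_getElem?_getD, h]

theorem R0_comm (e a b : ℕ) : R0 e a b = R0 e b a := by rw [R0, R0, max_comm, min_comm]

theorem R0_self (e a : ℕ) : R0 e a a = 0 := by
  rw [R0, max_self, min_self, row_eq]
  simp

theorem R0_add {e a b : ℕ} (ha : a ≤ e) (hb : b ≤ e) (d : ℕ) :
    R0 (e + d) a b = R0 e a b * 2 ^ d := by
  have h : e + d - max a b = e - max a b + d := by omega
  rw [R0, R0, h, pow_add, mul_assoc]

theorem R0_new {n j : ℕ} (h : j < n) : R0 n n j = newd ((List.range n).map row) j := by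
  rw [R0, max_eq_left h.le, min_eq_right h.le, row_eq]
  simp [List.getD_eq_getElem?_getD, h]

theorem length_cand (n : ℕ) : (cand n).length ≤ n := by
  rw [cand, List.length_map]
  refine (Encodable.length_le_encode _).trans ?_
  rw [Denumerable.encode_ofNat]
  exact Nat.unpair_right_le n

theorem new_spec {n : ℕ} (hn : 0 < n) : ∃ (A : Set ℕ) (F : ℕ → ℕ), (∀ a ∈ A, a < n) ∧
    (∀ a ∈ A, ∀ b ∈ A, R0 n a b ≤ F a + F b) ∧
    (∀ j < n, (∀ a ∈ A, R0 n n j ≤ F a + R0 n a j) ∧ ∃ a ∈ A, R0 n n j = F a + R0 n a j) ∧
    (Ok ((List.range n).map row) →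
      (∀ a < (cand n).length, a ∈ A) ∧ (∀ a ∈ A, a = 0 ∨ a < (cand n).length) ∧
        ∀ a, F a = (cand n).getD a 0) := by
  set T := (List.range n).map row with hT
  have hl : T.length = n := by simp [hT]
  have hu : (used T).length ≤ n := by
    unfold used
    split_ifs
    · exact hl ▸ length_cand _
    · simp
  have hA : ∀ a, (a = 0 ∨ a < (used T).length) → a < n := by omega
  refine ⟨{a | a = 0 ∨ a < (used T).length}, fun a => (used T).getD a 0, hA, ?_, ?_, ?_⟩
  · intro a ha b hb
    have ha' := hA a ha
    have hb' := hA b hb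
    by_cases h : (used T).length = 0
    · have h1 : a = 0 := by rcases ha with h1 | h1 <;> omega
      have h2 : b = 0 := by rcases hb with h1 | h1 <;> omega
      rw [h1, h2, R0_self]
      exact Nat.zero_le _
    · have hok : Ok T := by
        by_contra h1
        exact h (by simp [used, h1])
      have h1 : used T = cand T.length := if_pos hok
      have h2 := hok a (by rcases ha with h2 | h2 <;> rw [← h1] <;> omega) b
        (by rcases hb with h2 | h2 <;> rw [← h1] <;> omega)
      rwa [← h1, tab_eq _ ha' hb', hl] at h2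
  · intro j hj
    rw [R0_new hj, newd, hl]
    refine ⟨fun a ha => lmin_le _ _ _ ?_, ?_⟩
    · rw [← tab_eq _ (hA a ha) hj]
      rcases ha with rfl | ha
      · exact List.mem_cons_self
      · exact List.mem_cons_of_mem _ (List.mem_map.2 ⟨a, List.mem_range.2 ha, rfl⟩)
    · rcases List.mem_cons.1 (lmin_mem _ _) with h | h
      · exact ⟨0, Or.inl rfl, h.trans (by rw [tab_eq _ hn hj])⟩
      · obtain ⟨a, ha, h⟩ := List.mem_map.1 h
        have ha' := Or.inr (a := a = 0) (List.mem_range.1 ha)
        exact ⟨a, ha', h.symm.trans (by rw [tab_eq _ (hA a ha') hj])⟩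
  · intro hok
    have h1 : used T = cand n := hl ▸ if_pos hok
    rw [h1]
    exact ⟨fun a ha => Or.inr ha, fun a ha => ha, fun a => rfl⟩

theorem R0_tri : ∀ e, ∀ a ≤ e, ∀ b ≤ e, ∀ c ≤ e, R0 e a c ≤ R0 e a b + R0 e b c := by
  intro e
  induction e with
  | zero =>
    intro a ha b hb c hc
    rw [Nat.le_zero.1 ha, Nat.le_zero.1 hc, R0_self]
    exact Nat.zero_le _
  | succ e ih =>
    have h0 : ∀ a < e + 1, ∀ b < e + 1, ∀ c < e + 1,
        R0 (e + 1) a c ≤ R0 (e + 1) a b + R0 (e + 1) b c := by
      intro a ha b hb c hc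
      have := ih a (by omega) b (by omega) c (by omega)
      rw [R0_add (by omega) (by omega), R0_add (by omega) (by omega), R0_add (by omega) (by omega)]
      omega
    obtain ⟨A, F, hA, hF, hn, -⟩ := new_spec (Nat.succ_pos e)
    have hL : ∀ b < e + 1, ∀ c < e + 1,
        R0 (e + 1) (e + 1) c ≤ R0 (e + 1) (e + 1) b + R0 (e + 1) b c := by
      intro b hb c hc
      obtain ⟨x, hx, h1⟩ := (hn b hb).2
      have h2 := (hn c hc).1 x hx
      have h3 := h0 x (hA x hx) b hb c hc
      simp only [Nat.succ_eq_add_one] at h1 h2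
      omega
    have hK : ∀ a < e + 1, ∀ c < e + 1,
        R0 (e + 1) a c ≤ R0 (e + 1) (e + 1) a + R0 (e + 1) (e + 1) c := by
      intro a ha c hc
      obtain ⟨x, hx, h1⟩ := (hn a ha).2
      obtain ⟨y, hy, h2⟩ := (hn c hc).2
      have h3 := h0 a ha x (hA x hx) c hc
      have h4 := h0 x (hA x hx) y (hA y hy) c hc
      have h5 := hF x hx y hy
      have h6 := R0_comm (e + 1) a x
      simp only [Nat.succ_eq_add_one] at h1 h2 h5
      omega
    intro a ha b hb c hc
    have s1 := R0_comm (e + 1) a b
    have s2 := R0_comm (e + 1) b c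
    have s3 := R0_comm (e + 1) a c
    have s4 := R0_self (e + 1) (e + 1)
    rcases ha.lt_or_eq with ha | rfl <;> rcases hb.lt_or_eq with hb | rfl <;>
      rcases hc.lt_or_eq with hc | rfl
    · exact h0 a ha b hb c hc
    · have := hL b hb a ha
      omega
    · have := hK a ha c hc
      omega
    · omega
    · exact hL b hb c hc
    · omega
    · omega
    · omega

theorem R0_ext (e : ℕ) (f : ℕ → ℕ) (h1 : ∀ a ≤ e, ∀ b ≤ e, R0 e a b ≤ f a + f b)
    (h2 : ∀ a ≤ e, ∀ b ≤ e, f b ≤ f a + R0 e a b) :
    ∃ n, e < n ∧ ∀ a ≤ e, R0 n n a = f a * 2 ^ (n - e) := by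
  obtain ⟨n, hn⟩ : ∃ n, n = Nat.pair e (Encodable.encode ((List.range (e + 1)).map f)) := ⟨_, rfl⟩
  have hc : cand n = ((List.range (e + 1)).map f).map (· * 2 ^ (n - e)) := by
    rw [cand, show n.unpair = (e, Encodable.encode ((List.range (e + 1)).map f)) by
      rw [hn, Nat.unpair_pair], Denumerable.ofNat_encode]
  have hl : (cand n).length = e + 1 := by simp [hc]
  have hen : e < n := by have := length_cand n; omega
  have hg : ∀ a ≤ e, (cand n).getD a 0 = f a * 2 ^ (n - e) := fun a ha => by
    simp [hc, List.getD_eq_getElem?_getD, Nat.lt_succ_of_le ha]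
  have hR : ∀ a ≤ e, ∀ b ≤ e, R0 n a b = R0 e a b * 2 ^ (n - e) := fun a ha b hb => by
    rw [← R0_add ha hb, Nat.add_sub_cancel' hen.le]
  obtain ⟨A, F, -, -, hj, hok⟩ := new_spec (show 0 < n by omega)
  obtain ⟨k1, k2, k3⟩ := hok (by
    intro a ha b hb
    rw [List.length_map, List.length_range] at ha hb ⊢
    rw [tab_eq _ (by omega) (by omega), hg a (by omega), hg b (by omega), hR a (by omega) b
      (by omega), ← add_mul]
    exact Nat.mul_le_mul_right _ (h1 a (by omega) b (by omega)))
  refine ⟨n, hen, fun a ha => le_antisymm ?_ ?_⟩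
  · have h := (hj a (by omega)).1 a (k1 a (by omega))
    rwa [R0_self, k3, hg a ha] at h
  · obtain ⟨x, hx, h⟩ := (hj a (by omega)).2
    have hx' : x ≤ e := by rcases k2 x hx with h3 | h3 <;> omega
    rw [h, k3, hg x hx', hR x hx' a ha, ← add_mul]
    exact Nat.mul_le_mul_right _ (h2 x hx' a ha)

/-- The distances at scale `e`, larger indices being replaced by `e`. -/
def R (e a b : ℕ) : ℕ := R0 e (min a e) (min b e)

theorem R_eq {e a b : ℕ} (ha : a ≤ e) (hb : b ≤ e) : R e a b = R0 e a b := by
  rw [R, min_eq_left ha, min_eq_left hb]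

theorem R_self (e a : ℕ) : R e a a = 0 := R0_self _ _

theorem R_comm (e a b : ℕ) : R e a b = R e b a := R0_comm _ _ _

theorem R_tri (e a b c : ℕ) : R e a c ≤ R e a b + R e b c :=
  R0_tri e _ (min_le_right _ _) _ (min_le_right _ _) _ (min_le_right _ _)

theorem primrec_R {α : Type} [Primcodable α] {e a b : α → ℕ} (he : Primrec e) (ha : Primrec a)
    (hb : Primrec b) : Primrec fun x => R (e x) (a x) (b x) :=
  have h1 := nat_min.comp ha he
  have h2 := nat_min.comp hb he
  nat_mul.comp ((list_getD 0).comp (primrec_row.comp (nat_max.comp h1 h2)) (nat_min.comp h1 h2))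
    (hpow.comp (const 2) (nat_sub.comp he (nat_max.comp h1 h2)))

/-- The distance. -/
noncomputable def rho (a b : ℕ) : ℝ := R (max a b) a b / 2 ^ max a b

theorem rho_eq {e a b : ℕ} (ha : a ≤ e) (hb : b ≤ e) : rho a b = R e a b / 2 ^ e := by
  obtain ⟨d, rfl⟩ := Nat.exists_eq_add_of_le (max_le ha hb)
  rw [rho, R_eq (le_max_left _ _) (le_max_right _ _), R_eq ha hb,
    R0_add (le_max_left _ _) (le_max_right _ _), pow_add]
  push_cast
  field_simp

theorem rho_self (a : ℕ) : rho a a = 0 := by simp [rho, R_self]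

theorem rho_comm (a b : ℕ) : rho a b = rho b a := by rw [rho, rho, max_comm, R_comm]

theorem rho_tri (a b c : ℕ) : rho a c ≤ rho a b + rho b c := by
  rw [rho_eq (e := a + b + c) (by omega) (by omega), rho_eq (e := a + b + c) (by omega) (by omega),
    rho_eq (e := a + b + c) (by omega) (by omega), ← add_div]
  gcongr
  exact_mod_cast R_tri _ a b c

theorem exists_ext (e : ℕ) (f : ℕ → ℕ) (h1 : ∀ a ≤ e, ∀ b ≤ e, R e a b ≤ f a + f b)
    (h2 : ∀ a ≤ e, ∀ b ≤ e, f b ≤ f a + R e a b) :
    ∃ n, e < n ∧ ∀ a ≤ e, R n n a = f a * 2 ^ (n - e) ∧ rho a n = f a / 2 ^ e := by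
  obtain ⟨n, hn, h⟩ := R0_ext e f (fun a ha b hb => R_eq ha hb ▸ h1 a ha b hb)
    (fun a ha b hb => R_eq ha hb ▸ h2 a ha b hb)
  refine ⟨n, hn, fun a ha => ?_⟩
  have h3 : R n n a = f a * 2 ^ (n - e) := by rw [R_eq le_rfl (by omega), h a ha]
  refine ⟨h3, ?_⟩
  obtain ⟨d, rfl⟩ := Nat.exists_eq_add_of_le hn.le
  rw [rho_comm, rho_eq le_rfl (by omega), h3, Nat.add_sub_cancel_left, pow_add]
  push_cast
  field_simp

end Pool.Agent.Lib.MP_b0cc33_lc.Ur
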