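import Pool.Agent.Lib.MP_b0cc33_lc.UrComp
import Pool.Agent.Lib.MP_b0cc33_lc.UrExt

set_option autoImplicit false

/-!
The action of a group with co-c.e. word problem on the fixed space.
-/

namespace Pool.Agent.Lib.MP_b0cc33_lc.Ur

open Filter Topology

theorem le_of_pow {x y : ℝ} (c : ℝ) (h : ∀ k : ℕ, x ≤ y + c * (1 / 2 ^ k)) : x ≤ y := by
  have h1 : Tendsto (fun k : ℕ => y + c * (1 / 2 ^ k : ℝ)) atTop (𝓝 (y + c * 0)) := by
    simp only [← one_div_pow]
    exact ((tendsto_pow_atTop_nhds_zero_of_lt_one (by norm_num) (by norm_num)).const_mul c).const_add y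
  simpa using ge_of_tendsto' h1 h

theorem exists_action {n : ℕ} {G : Type*} [Group G] (φ : FreeGroup (Fin n) →* G)
    (hφ : Function.Surjective φ) (hre : REPred fun w : W n => φ (FreeGroup.mk w) ≠ 1) :
    ∃ ψ : G →* (UU ≃ᵢ UU), Function.Injective ψ ∧ ∀ g, ∃ h : ℕ → ℕ, Computable h ∧
      ∀ y k, dist (ss (h (Nat.pair y k))) (ψ g (ss y)) ≤ 1 / 2 ^ k := by
  obtain ⟨e, he, hte, hd, hpos⟩ := exists_seq φ hre
  choose u hu using hφ
  obtain ⟨τ, hτ⟩ : ∃ τ : G → ℕ → ℕ → ℕ,
      τ = fun g y k => Nat.pair (Nat.pair (Encodable.encode (u g).toWord) y) k := ⟨_, rfl⟩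
  have hw : ∀ g y k, tw n (τ g y k) = (u g).toWord := fun g y k => by simp [tw, hτ]
  have hy : ∀ g y k, ty (τ g y k) = y := fun g y k => by simp [ty, hτ]
  have hk : ∀ g y k, k ≤ τ g y k := fun g y k => hτ ▸ Nat.right_le_pair _ _
  have hε : ∀ g y k, (1 : ℝ) / 2 ^ e (τ g y k) ≤ 1 / 2 ^ k := fun g y k => by
    gcongr
    · norm_num
    · exact (hk g y k).trans (hte _)
  have key : ∀ T, ∃ d : ℕ → G → ℕ → ℝ, IsLen d ∧ (∀ a b, d a 1 b = dist (ss a) (ss b)) ∧
      ∀ g y k, τ g y k < T → d (e (τ g y k + 1)) g y ≤ 1 / 2 ^ e (τ g y k) := fun T => by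
    obtain ⟨d, h1, h2, h3⟩ := hd T
    refine ⟨d, h1, fun a b => (h2 a b).trans (dist_ss a b).symm, fun g y k h => ?_⟩
    have h4 := h3 _ h
    rwa [hw, hy, FreeGroup.mk_toWord, hu] at h4
  have hc : ∀ g y k k', dist (ss (e (τ g y k + 1))) (ss (e (τ g y k' + 1))) ≤
      1 / 2 ^ e (τ g y k) + 1 / 2 ^ k' := fun g y k k' => by
    obtain ⟨d, h1, h2, h3⟩ := key (τ g y k + τ g y k' + 1)
    have h4 := h1.tri (e (τ g y k + 1)) g y g⁻¹ (e (τ g y k' + 1))
    rw [mul_inv_cancel, h2, ← h1.symm] at h4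
    linarith [h3 g y k (by omega), h3 g y k' (by omega), hε g y k']
  have hC : ∀ g y, CauchySeq fun k => ss (e (τ g y k + 1)) := fun g y =>
    cauchySeq_of_le_geometric (1 / 2) 2 (by norm_num) fun k => by
      have h1 := hc g y k (k + 1)
      have h2 := hε g y k
      have h3 : (0 : ℝ) < (1 / 2) ^ k := by positivity
      rw [← one_div_pow (2 : ℝ) k] at h2
      rw [← one_div_pow (2 : ℝ) (k + 1), pow_succ] at h1
      linarith
  choose T hT using fun g y => cauchySeq_tendsto_of_complete (hC g y)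
  have hT1 : ∀ g y k, dist (ss (e (τ g y k + 1))) (T g y) ≤ 1 / 2 ^ e (τ g y k) := fun g y k => by
    have h1 : Tendsto (fun k' : ℕ => (1 : ℝ) / 2 ^ e (τ g y k) + 1 / 2 ^ k') atTop
        (𝓝 (1 / 2 ^ e (τ g y k) + 0)) := by
      refine Tendsto.const_add _ ?_
      simp only [← one_div_pow]
      exact tendsto_pow_atTop_nhds_zero_of_lt_one (by norm_num) (by norm_num)
    simpa using le_of_tendsto_of_tendsto' (tendsto_const_nhds.dist (hT g y)) h1 (hc g y k)
  have hT2 : ∀ g y k, dist (ss (e (τ g y k + 1))) (T g y) ≤ 1 / 2 ^ k := fun g y k =>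
    (hT1 g y k).trans (hε g y k)
  have hZ : ∀ g h y y', dist (T g y) (T (g * h) y') ≤ dist (ss y) (T h y') := fun g h y y' => by
    refine le_of_pow 6 fun k => ?_
    obtain ⟨d, h1, h2, h3⟩ := key (τ g y k + τ (g * h) y' k + τ h y' k + 1)
    have k1 := h1.tri (e (τ g y k + 1)) g y (1 * (h * (g * h)⁻¹)) (e (τ (g * h) y' k + 1))
    have k2 := h1.tri y 1 (e (τ h y' k + 1)) (h * (g * h)⁻¹) (e (τ (g * h) y' k + 1))
    have k3 := h1.tri (e (τ h y' k + 1)) h y' (g * h)⁻¹ (e (τ (g * h) y' k + 1))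
    rw [show g * (1 * (h * (g * h)⁻¹)) = 1 by group, h2] at k1
    rw [h2] at k2
    rw [← h1.symm] at k3
    have k4 := dist_triangle_left (T g y) (T (g * h) y') (ss (e (τ g y k + 1)))
    have k6 := dist_triangle (ss (e (τ g y k + 1))) (ss (e (τ (g * h) y' k + 1))) (T (g * h) y')
    have k5 := dist_triangle_right (ss y) (ss (e (τ h y' k + 1))) (T h y')
    linarith [h3 g y k (by omega), h3 (g * h) y' k (by omega), h3 h y' k (by omega), hε g y k,
      hε (g * h) y' k, hε h y' k, hT2 g y k, hT2 (g * h) y' k, hT2 h y' k]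
  have hZ0 : ∀ y, T 1 y = ss y := fun y => by
    refine dist_le_zero.1 (le_of_pow 2 fun k => ?_)
    obtain ⟨d, h1, h2, h3⟩ := key (τ 1 y k + 1)
    have k1 := h3 1 y k (by omega)
    rw [h2] at k1
    linarith [dist_triangle_left (T 1 y) (ss y) (ss (e (τ 1 y k + 1))), hT2 1 y k, hε 1 y k]
  have hZ1 : ∀ g y y', dist (T g y) (T g y') ≤ rho y y' := fun g y y' => by
    have h1 := hZ g 1 y y'
    rwa [mul_one, hZ0, dist_ss] at h1
  have hL : ∀ g, LipschitzWith 1 (show U0 → UU from T g) := fun g =>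
    LipschitzWith.mk_one (hZ1 g)
  let S : G → UU → UU := fun g => UniformSpace.Completion.extension (show U0 → UU from T g)
  have hS : ∀ g y, S g (ss y) = T g y := fun g y =>
    UniformSpace.Completion.extension_coe (hL g).uniformContinuous _
  have hSL : ∀ g, LipschitzWith 1 (S g) := fun g => (hL g).completion_extension
  have hST : ∀ g h y, S g (T h y) = T (g * h) y := fun g h y => by
    refine dist_le_zero.1 (le_of_pow 2 fun k => ?_)
    have k1 := (hSL g).dist_le_mul (T h y) (ss (e (τ h y k + 1)))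
    rw [hS, NNReal.coe_one, one_mul, dist_comm (T h y)] at k1
    linarith [dist_triangle (S g (T h y)) (T g (e (τ h y k + 1))) (T (g * h) y),
      hZ g h (e (τ h y k + 1)) y, hT2 h y k]
  have hmul : ∀ g h x, S (g * h) x = S g (S h x) := fun g h x =>
    dense_ss.induction_on x (isClosed_eq (hSL _).continuous
      ((hSL g).continuous.comp (hSL h).continuous)) fun y => by rw [hS, hS, hST]
  have hone : ∀ x, S 1 x = x := fun x =>
    dense_ss.induction_on x (isClosed_eq (hSL _).continuous continuous_id) fun y => by rw [hS, hZ0]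
  let ψ : G →* (UU ≃ᵢ UU) :=
    { toFun := fun g =>
        { toFun := S g
          invFun := S g⁻¹
          left_inv := fun x => by rw [← hmul, inv_mul_cancel, hone]
          right_inv := fun x => by rw [← hmul, mul_inv_cancel, hone]
          isometry_toFun := Isometry.of_dist_eq fun x x' => le_antisymm
            (by simpa using (hSL g).dist_le_mul x x') (by
              have h1 := (hSL g⁻¹).dist_le_mul (S g x) (S g x')
              rwa [← hmul, ← hmul, inv_mul_cancel, hone, hone, NNReal.coe_one, one_mul] at h1) }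
      map_one' := IsometryEquiv.ext hone
      map_mul' := fun g h => IsometryEquiv.ext (hmul g h) }
  have hψ : ∀ g y, ψ g (ss y) = T g y := hS
  refine ⟨ψ, (injective_iff_map_eq_one ψ).2 fun g hg => by_contra fun h1 => ?_, fun g =>
    ⟨fun m => e (τ g m.unpair.1 m.unpair.2 + 1), ?_, fun y k => ?_⟩⟩
  · obtain ⟨s, hs⟩ := hpos (u g).toWord (by rwa [FreeGroup.mk_toWord, hu])
    have h2 := hs _ (hk g 0 s) (hw g 0 s)
    have h3 := hT1 g 0 s
    have h4 : (0 : ℝ) < 1 / 2 ^ e (τ g 0 s) := by positivity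
    rw [← hψ, hg, IsometryEquiv.coe_one, id, dist_ss] at h3
    rw [hy, ← mul_one_div] at h2
    linarith
  · rw [hτ]
    exact he.comp (Primrec.succ.comp (Primrec₂.natPair.comp (Primrec₂.natPair.comp
      (Primrec.const _) (Primrec.fst.comp Primrec.unpair)) (Primrec.snd.comp Primrec.unpair))).to_comp
  · simp only [Nat.unpair_pair, hψ]
    exact hT2 g y k

end Pool.Agent.Lib.MP_b0cc33_lc.Ur
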